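import Mathlib

/-!
# Uniform random orderings of a finite set

`Om C` is the set of all orderings of the finite type `C`; `PP Q` is the probability of the event `Q`
under a uniformly random ordering; `In t S e` is the event that all the elements of `S` are among the
first `t`.
-/

set_option autoImplicit false

namespace Pool.Agent.P8H97.TS

open Finset

open scoped Classical in
/-- Orderings. -/
abbrev Om (C : Type*) := Fin (Nat.card C) ≃ C

noncomputable section
open Classical

variable {C : Type*} [Fintype C]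

/-- Probability under a uniformly random ordering. -/
def PP (Q : Om C → Prop) : ℝ :=
  (∑ e : Om C, if Q e then (1 : ℝ) else 0) / (Fintype.card (Om C) : ℝ)

lemma card_Om_pos : 0 < (Fintype.card (Om C) : ℝ) := by
  have : Nonempty (Om C) := by
    refine ⟨(Fintype.equivFinOfCardEq ?_).symm⟩
    exact (Nat.card_eq_fintype_card).symm
  exact_mod_cast Fintype.card_pos

lemma PP_eq_card (Q : Om C → Prop) :
    PP Q = (Nat.card {e : Om C // Q e} : ℝ) / (Nat.card (Om C) : ℝ) := by
  unfold PP
  have h1 : Nat.card {e : Om C // Q e} = (Finset.univ.filter Q).card := by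
    rw [Nat.subtype_card (p := Q) (Finset.univ.filter Q) (fun x => by simp)]
  have h2 : Nat.card (Om C) = Fintype.card (Om C) := Nat.card_eq_fintype_card
  rw [h1, h2]
  simp

lemma PP_nonneg (Q : Om C → Prop) : 0 ≤ PP Q := by
  unfold PP
  refine div_nonneg (Finset.sum_nonneg fun e _ => ?_) card_Om_pos.le
  split_ifs <;> norm_num

lemma PP_mono {Q R : Om C → Prop} (h : ∀ e, Q e → R e) : PP Q ≤ PP R := by
  unfold PP
  refine div_le_div_of_nonneg_right (Finset.sum_le_sum fun e _ => ?_) card_Om_pos.le
  by_cases hq : Q e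
  · simp [hq, h e hq]
  · simp only [hq, if_false]; split_ifs <;> norm_num

lemma PP_true : PP (fun _ : Om C => True) = 1 := by
  unfold PP
  simp only [if_true, Finset.sum_const, Finset.card_univ, nsmul_eq_mul, mul_one]
  exact div_self card_Om_pos.ne'

lemma PP_le_one (Q : Om C → Prop) : PP Q ≤ 1 := by
  rw [← PP_true (C := C)]
  exact PP_mono fun _ _ => trivial

lemma PP_or (Q R : Om C → Prop) : PP (fun e => Q e ∨ R e) ≤ PP Q + PP R := by
  unfold PP
  rw [← add_div, ← Finset.sum_add_distrib]
  refine div_le_div_of_nonneg_right (Finset.sum_le_sum fun e _ => ?_) card_Om_pos.le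
  by_cases hq : Q e <;> by_cases hr : R e <;> simp [hq, hr]

lemma PP_exists {ι : Type*} (s : Finset ι) (Q : ι → Om C → Prop) :
    PP (fun e => ∃ i ∈ s, Q i e) ≤ ∑ i ∈ s, PP (Q i) := by
  induction s using Finset.induction_on with
  | empty =>
    simp only [Finset.notMem_empty, false_and, exists_false, Finset.sum_empty]
    unfold PP; simp
  | insert a s ha ih =>
    rw [Finset.sum_insert ha]
    refine le_trans ?_ (add_le_add le_rfl ih)
    refine le_trans (PP_mono ?_) (PP_or _ _)
    rintro e ⟨i, hi, hq⟩
    rcases Finset.mem_insert.1 hi with rfl | hi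
    · exact Or.inl hq
    · exact Or.inr ⟨i, hi, hq⟩

/-- Multiplicity bound. -/
lemma sum_PP_le {ι : Type*} (s : Finset ι) (Q : ι → Om C → Prop) (R : Om C → Prop) (K : ℕ)
    (h1 : ∀ e, ∀ i ∈ s, Q i e → R e) (h2 : ∀ e, (s.filter fun i => Q i e).card ≤ K) :
    ∑ i ∈ s, PP (Q i) ≤ K * PP R := by
  unfold PP
  rw [← Finset.sum_div, Finset.sum_comm, ← mul_div_assoc, Finset.mul_sum]
  refine div_le_div_of_nonneg_right (Finset.sum_le_sum fun e _ => ?_) card_Om_pos.le
  by_cases hr : R e
  · simp only [hr, if_true, mul_one]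
    rw [← Finset.sum_filter, Finset.sum_const, nsmul_eq_mul, mul_one]
    exact_mod_cast h2 e
  · have : ∀ i ∈ s, ¬ Q i e := fun i hi hq => hr (h1 e i hi hq)
    rw [Finset.sum_eq_zero (fun i hi => by simp [this i hi])]
    simp [hr]

lemma PP_diff (Q R : Om C → Prop) : PP Q - PP R ≤ PP (fun e => Q e ∧ ¬ R e) := by
  have := PP_or (fun e => Q e ∧ ¬ R e) R
  have h2 : PP Q ≤ PP (fun e => (Q e ∧ ¬ R e) ∨ R e) := PP_mono fun e hq => by
    by_cases hr : R e
    · exact Or.inr hr
    · exact Or.inl ⟨hq, hr⟩
  linarith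

/-- All elements of `S` are among the first `t`. -/
def In (t : ℕ) (S : Finset C) (e : Om C) : Prop := ∀ c ∈ S, (e.symm c : ℕ) < t

lemma PP_perm (Q : Om C → Prop) (π : Equiv.Perm C) :
    PP (fun e => Q (e.trans π)) = PP Q := by
  unfold PP
  congr 1
  exact Fintype.sum_equiv
    (⟨fun e => e.trans π, fun e => e.trans π.symm, fun e => by ext; simp, fun e => by ext; simp⟩ :
      Om C ≃ Om C) _ _ (fun e => rfl)

lemma PP_In_congr (t : ℕ) {S S' : Finset C} (h : S.card = S'.card) :
    PP (In t S) = PP (In t S') := by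
  have e0 : {x // x ∈ S} ≃ {x // x ∈ S'} := Finset.equivOfCardEq h
  set π : Equiv.Perm C := Equiv.extendSubtype e0 with hπ
  have h1 : ∀ x ∈ S, π x ∈ S' := fun x hx => Equiv.extendSubtype_mem e0 x hx
  have hmap : S.image π = S' := by
    refine Finset.eq_of_subset_of_card_le ?_ ?_
    · intro y hy
      obtain ⟨x, hx, rfl⟩ := Finset.mem_image.1 hy
      exact h1 x hx
    · rw [Finset.card_image_of_injective _ π.injective, h]
  rw [← PP_perm (In t S') π]
  congr 1
  funext e
  apply propext
  unfold In
  constructor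
  · intro hS c hc
    rw [← hmap] at hc
    obtain ⟨x, hx, rfl⟩ := Finset.mem_image.1 hc
    simpa using hS x hx
  · intro hS c hc
    have := hS (π c) (h1 c hc)
    simpa using this

lemma card_first (t : ℕ) (ht : t ≤ Nat.card C) (e : Om C) :
    (Finset.univ.filter fun c : C => (e.symm c : ℕ) < t).card = t := by
  have : (Finset.univ.filter fun c : C => (e.symm c : ℕ) < t)
      = (Finset.univ.filter fun i : Fin (Nat.card C) => (i : ℕ) < t).map e.toEmbedding := by
    ext c
    simp only [Finset.mem_filter, Finset.mem_univ, true_and, Finset.mem_map,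
      Equiv.coe_toEmbedding]
    constructor
    · intro h; exact ⟨e.symm c, h, by simp⟩
    · rintro ⟨i, hi, rfl⟩; simpa using hi
  rw [this, Finset.card_map]
  rw [Fin.card_filter_val_lt]
  simpa using ht

lemma PP_In_mul_choose (t : ℕ) (ht : t ≤ Nat.card C) (S : Finset C) :
    PP (In t S) * ((Nat.card C).choose S.card : ℝ) = (t.choose S.card : ℝ) := by
  have h1 : ∑ S' ∈ Finset.powersetCard S.card (Finset.univ : Finset C), PP (In t S')
      = PP (In t S) * ((Nat.card C).choose S.card : ℝ) := by
    rw [Finset.sum_congr rfl (g := fun _ => PP (In t S))]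
    · rw [Finset.sum_const, Finset.card_powersetCard, nsmul_eq_mul, Finset.card_univ,
        Nat.card_eq_fintype_card, mul_comm]
    · intro S' hS'
      exact PP_In_congr t (Finset.mem_powersetCard.1 hS').2
  rw [← h1]
  unfold PP
  rw [← Finset.sum_div, Finset.sum_comm]
  rw [div_eq_iff card_Om_pos.ne']
  rw [Finset.sum_congr rfl (g := fun _ => (t.choose S.card : ℝ))]
  · rw [Finset.sum_const, Finset.card_univ, nsmul_eq_mul, mul_comm]
  · intro e _
    rw [← Finset.sum_filter, Finset.sum_const, nsmul_eq_mul, mul_one]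
    have : ((Finset.powersetCard S.card (Finset.univ : Finset C)).filter fun S' => In t S' e)
        = Finset.powersetCard S.card (Finset.univ.filter fun c : C => (e.symm c : ℕ) < t) := by
      ext S'
      rw [Finset.mem_filter, Finset.mem_powersetCard, Finset.mem_powersetCard]
      constructor
      · rintro ⟨⟨_, h⟩, h'⟩
        exact ⟨fun c hc => by simpa using h' c hc, h⟩
      · rintro ⟨h, h'⟩
        exact ⟨⟨Finset.subset_univ _, h'⟩, fun c hc => by simpa using h hc⟩
    rw [this, Finset.card_powersetCard, card_first t ht e]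

lemma card_le_N (S : Finset C) : S.card ≤ Nat.card C := by
  rw [Nat.card_eq_fintype_card]; exact Finset.card_le_univ S

lemma PP_In_insert [DecidableEq C] (t : ℕ) (ht : t ≤ Nat.card C) (S : Finset C) (c : C) (hc : c ∉ S) :
    PP (In t (insert c S)) * ((Nat.card C - S.card : ℕ) : ℝ)
      = PP (In t S) * ((t - S.card : ℕ) : ℝ) := by
  have h1 := PP_In_mul_choose t ht (insert c S)
  have h2 := PP_In_mul_choose t ht S
  rw [Finset.card_insert_of_notMem hc] at h1
  have h3 := Nat.choose_succ_right_eq (Nat.card C) S.card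
  have h4 := Nat.choose_succ_right_eq t S.card
  have h3' : ((Nat.card C).choose (S.card + 1) : ℝ) * (S.card + 1)
      = ((Nat.card C).choose S.card : ℝ) * ((Nat.card C - S.card : ℕ) : ℝ) := by exact_mod_cast h3
  have h4' : ((t).choose (S.card + 1) : ℝ) * (S.card + 1)
      = ((t).choose S.card : ℝ) * ((t - S.card : ℕ) : ℝ) := by exact_mod_cast h4
  have hpos : (0 : ℝ) < ((Nat.card C).choose S.card : ℝ) := by
    exact_mod_cast Nat.choose_pos (card_le_N S)
  have hne := hpos.ne'
  apply mul_left_cancel₀ hne
  calc ((Nat.card C).choose S.card : ℝ) * (PP (In t (insert c S)) * ((Nat.card C - S.card : ℕ) : ℝ))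
      = PP (In t (insert c S)) * (((Nat.card C).choose S.card : ℝ) * ((Nat.card C - S.card : ℕ) : ℝ)) := by ring
    _ = PP (In t (insert c S)) * (((Nat.card C).choose (S.card + 1) : ℝ) * (S.card + 1)) := by rw [h3']
    _ = (t.choose (S.card + 1) : ℝ) * (S.card + 1) := by rw [← mul_assoc, h1]
    _ = ((t).choose S.card : ℝ) * ((t - S.card : ℕ) : ℝ) := h4'
    _ = _ := by rw [← h2]; ring

lemma PP_In_insert_le [DecidableEq C] (t : ℕ) (ht : t ≤ Nat.card C) (S : Finset C) (c : C) (hc : c ∉ S) :
    PP (In t (insert c S)) ≤ PP (In t S) * ((t : ℝ) / (Nat.card C : ℝ)) := by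
  have h := PP_In_insert t ht S c hc
  have hlt : S.card < Nat.card C := by
    have := card_le_N (insert c S)
    rw [Finset.card_insert_of_notMem hc] at this
    omega
  have hN : (0 : ℝ) < (Nat.card C : ℝ) := by
    have : 0 < Nat.card C := by omega
    exact_mod_cast this
  have hNs : (0 : ℝ) < ((Nat.card C - S.card : ℕ) : ℝ) := by
    have : 0 < Nat.card C - S.card := by omega
    exact_mod_cast this
  have e1 : PP (In t (insert c S)) = PP (In t S) * (((t - S.card : ℕ) : ℝ) / ((Nat.card C - S.card : ℕ) : ℝ)) := by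
    field_simp
    linarith
  rw [e1]
  refine mul_le_mul_of_nonneg_left ?_ (PP_nonneg _)
  rw [div_le_div_iff₀ hNs hN]
  rcases le_total t S.card with hts | hts
  · rw [Nat.sub_eq_zero_of_le hts]; simp only [Nat.cast_zero, zero_mul]; positivity
  · rw [Nat.cast_sub hts, Nat.cast_sub hlt.le]
    have : (t : ℝ) ≤ (Nat.card C : ℝ) := by exact_mod_cast ht
    have h0 : (0 : ℝ) ≤ (S.card : ℝ) := by positivity
    nlinarith

lemma PP_In_union_le [DecidableEq C] (t : ℕ) (ht : t ≤ Nat.card C) (S S' : Finset C) (hd : Disjoint S S') :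
    PP (In t (S ∪ S')) ≤ PP (In t S) * ((t : ℝ) / (Nat.card C : ℝ)) ^ S'.card := by
  induction S' using Finset.induction_on with
  | empty => simp
  | insert c S' hc ih =>
    have hd' : Disjoint S S' := by
      rw [Finset.disjoint_insert_right] at hd; exact hd.2
    have hcS : c ∉ S := by
      rw [Finset.disjoint_insert_right] at hd; exact hd.1
    rw [Finset.union_insert, Finset.card_insert_of_notMem hc, pow_succ, ← mul_assoc]
    refine (PP_In_insert_le t ht _ c (by simp [hcS, hc])).trans ?_
    exact mul_le_mul_of_nonneg_right (ih hd') (by positivity)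

lemma PP_In_empty (t : ℕ) : PP (In t (∅ : Finset C)) = 1 := by
  rw [← PP_true (C := C)]
  congr 1
  funext e
  simp [In]

lemma PP_In_ge (t s : ℕ) (ht : t ≤ Nat.card C) (hs : s ≤ t) (S : Finset C) (hS : S.card ≤ s) :
    (((t : ℝ) - s) / (Nat.card C : ℝ)) ^ S.card ≤ PP (In t S) := by
  induction S using Finset.induction_on with
  | empty => simp [PP_In_empty]
  | insert c S hc ih =>
    rw [Finset.card_insert_of_notMem hc] at hS ⊢
    have ih := ih (by omega)
    have h := PP_In_insert t ht S c hc
    have hlt : S.card < Nat.card C := by omega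
    have hN : (0 : ℝ) < (Nat.card C : ℝ) := by
      have : 0 < Nat.card C := by omega
      exact_mod_cast this
    have hNs : (0 : ℝ) < ((Nat.card C - S.card : ℕ) : ℝ) := by
      have : 0 < Nat.card C - S.card := by omega
      exact_mod_cast this
    have e1 : PP (In t (insert c S)) = PP (In t S) * (((t - S.card : ℕ) : ℝ) / ((Nat.card C - S.card : ℕ) : ℝ)) := by
      field_simp
      linarith
    rw [e1, pow_succ]
    have hst : (0 : ℝ) ≤ (t : ℝ) - s := by
      have : (s : ℝ) ≤ t := by exact_mod_cast hs
      linarith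
    refine mul_le_mul ih ?_ (div_nonneg hst hN.le) (PP_nonneg _)
    rw [div_le_div_iff₀ hN hNs, Nat.cast_sub (by omega : S.card ≤ t), Nat.cast_sub hlt.le]
    have h0 : (0 : ℝ) ≤ (S.card : ℝ) := by positivity
    have h1 : (S.card : ℝ) ≤ s := by
      have : S.card ≤ s := by omega
      exact_mod_cast this
    nlinarith

end

end Pool.Agent.P8H97.TS
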