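import Pool.Agent.P8H97.TS.Base

/-!
# Two-clauses, arcs and walks
-/

set_option autoImplicit false

namespace Pool.Agent.P8H97.TS

open Finset

noncomputable section

/-- Literals. -/
abbrev Lit (n : ℕ) := Fin n × Bool

/-- Two-clauses. -/
abbrev Cl (n : ℕ) := {c : Finset (Fin n × Bool) // c.card = 2 ∧ (c.image Prod.fst).card = 2}

variable {n : ℕ}

/-- Negation of a literal. -/
def neg (x : Lit n) : Lit n := (x.1, !x.2)

@[simp] lemma neg_fst (x : Lit n) : (neg x).1 = x.1 := rfl
@[simp] lemma neg_neg' (x : Lit n) : neg (neg x) = x := by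
  rcases x with ⟨a, b⟩; simp [neg]
lemma neg_ne (x : Lit n) : neg x ≠ x := by
  rcases x with ⟨a, b⟩; simp [neg]
lemma ne_neg (x : Lit n) : x ≠ neg x := (neg_ne x).symm
lemma neg_inj {x y : Lit n} : neg x = neg y ↔ x = y := by
  constructor
  · intro h; rw [← neg_neg' x, h, neg_neg']
  · rintro rfl; rfl
lemma eq_or_eq_neg {x y : Lit n} (h : x.1 = y.1) : x = y ∨ x = neg y := by
  rcases x with ⟨a, b⟩
  rcases y with ⟨c, d⟩
  simp only at h
  subst h
  cases b <;> cases d <;> simp [neg]

/-- The clause of the arc `x → y`. -/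
def ac (x y : Lit n) : Finset (Lit n) := {neg x, y}

lemma ac_symm (x y : Lit n) : ac x y = ac (neg y) (neg x) := by
  unfold ac; rw [neg_neg', Finset.pair_comm]

lemma mem_ac {x y z : Lit n} : z ∈ ac x y ↔ z = neg x ∨ z = y := by
  simp [ac]

/-- Being a two-clause. -/
def Valid (c : Finset (Lit n)) : Prop := c.card = 2 ∧ (c.image Prod.fst).card = 2

lemma valid_pair_iff (x y : Lit n) : Valid ({x, y} : Finset (Lit n)) ↔ x.1 ≠ y.1 := by
  unfold Valid
  constructor
  · rintro ⟨_, h2⟩ h
    rw [Finset.image_insert, Finset.image_singleton, h] at h2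
    simp at h2
  · intro h
    have hxy : x ≠ y := fun e => h (by rw [e])
    refine ⟨Finset.card_pair hxy, ?_⟩
    rw [Finset.image_insert, Finset.image_singleton]
    exact Finset.card_pair h

lemma valid_ac_iff (x y : Lit n) : Valid (ac x y) ↔ x.1 ≠ y.1 := by
  unfold ac; rw [valid_pair_iff]; rfl

lemma pair_eq_pair {α : Type*} [DecidableEq α] {a b c d : α} (h : ({a, b} : Finset α) = {c, d}) :
    (a = c ∧ b = d) ∨ (a = d ∧ b = c) := by
  have h1 : a ∈ ({c, d} : Finset α) := by rw [← h]; simp
  have h2 : b ∈ ({c, d} : Finset α) := by rw [← h]; simp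
  have h3 : c ∈ ({a, b} : Finset α) := by rw [h]; simp
  have h4 : d ∈ ({a, b} : Finset α) := by rw [h]; simp
  simp only [Finset.mem_insert, Finset.mem_singleton] at h1 h2 h3 h4
  rcases h1 with h1 | h1 <;> rcases h2 with h2 | h2
  · subst h1 h2; rcases h4 with h4 | h4 <;> simp_all
  · exact Or.inl ⟨h1, h2⟩
  · exact Or.inr ⟨h1, h2⟩
  · subst h1 h2; rcases h3 with h3 | h3 <;> simp_all

lemma ac_eq_ac {x y z w : Lit n} (h : ac x y = ac z w) :
    (x = z ∧ y = w) ∨ (x = neg w ∧ y = neg z) := by
  rcases pair_eq_pair h with ⟨h1, h2⟩ | ⟨h1, h2⟩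
  · exact Or.inl ⟨neg_inj.1 h1, h2⟩
  · refine Or.inr ⟨?_, h2⟩
    rw [← h1, neg_neg']

lemma valid_exists {c : Finset (Lit n)} (h : Valid c) : ∃ x y : Lit n, x.1 ≠ y.1 ∧ c = {x, y} := by
  obtain ⟨x, y, hxy, rfl⟩ := Finset.card_eq_two.1 h.1
  exact ⟨x, y, (valid_pair_iff x y).1 h, rfl⟩

/-! ### the number of clauses -/

lemma card_Cl : Nat.card (Cl n) = 2 * n * (n - 1) := by
  set P : Finset (Lit n × Lit n) := Finset.univ.filter fun p => p.1.1 ≠ p.2.1 with hP
  set Q : Finset (Finset (Lit n)) := Finset.univ.filter fun c => c.card = 2 ∧ (c.image Prod.fst).card = 2 with hQ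
  have h1 : Nat.card (Cl n) = Q.card := by
    rw [Nat.subtype_card Q (fun x => by simp [hQ])]
  have h2 : P.card = 2 * Q.card := by
    rw [Finset.card_eq_sum_card_fiberwise (f := fun p => ({p.1, p.2} : Finset (Lit n))) (t := Q)]
    · rw [Finset.sum_congr rfl (g := fun _ => 2)]
      · simp [mul_comm]
      · intro c hc
        obtain ⟨x, y, hxy, rfl⟩ := valid_exists (Finset.mem_filter.1 hc).2
        have hne : x ≠ y := fun e => hxy (by rw [e])
        have : (P.filter fun p => ({p.1, p.2} : Finset (Lit n)) = {x, y}) = {(x, y), (y, x)} := by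
          ext ⟨a, b⟩
          simp only [hP, Finset.mem_filter, Finset.mem_univ, true_and, Finset.mem_insert,
            Finset.mem_singleton, Prod.mk.injEq]
          constructor
          · rintro ⟨_, h⟩; exact pair_eq_pair h
          · rintro (⟨rfl, rfl⟩ | ⟨rfl, rfl⟩)
            · exact ⟨hxy, rfl⟩
            · exact ⟨hxy.symm, Finset.pair_comm _ _⟩
        rw [this, Finset.card_pair]
        simp only [ne_eq, Prod.mk.injEq, not_and]
        intro h; exact absurd h hne
    · intro p hp
      simp only [hQ, Finset.coe_filter, Finset.mem_univ, true_and, Set.mem_ofPred_eq]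
      exact (valid_pair_iff _ _).2 (Finset.mem_filter.1 hp).2
  have h3 : P.card = (2 * n) * (2 * (n - 1)) := by
    rw [Finset.card_eq_sum_card_fiberwise (f := fun p => p.1) (t := (Finset.univ : Finset (Lit n)))
      (by intro p hp; simp)]
    rw [Finset.sum_congr rfl (g := fun _ => 2 * (n - 1))]
    · simp [Fintype.card_prod, mul_comm]
    · intro x _
      have : (P.filter fun p => p.1 = x)
          = ((Finset.univ.erase x.1) ×ˢ (Finset.univ : Finset Bool)).map
            ⟨fun y => (x, y), fun a b h => by simpa using h⟩ := by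
        ext ⟨a, b⟩
        simp only [hP, Finset.mem_filter, Finset.mem_univ, true_and, Finset.mem_map,
          Finset.mem_product, Finset.mem_erase, and_true]
        constructor
        · rintro ⟨h, rfl⟩; exact ⟨b, fun e => h e.symm, rfl⟩
        · rintro ⟨y, hy, h⟩
          have h1 : x = a := congrArg Prod.fst h
          have h2 : y = b := congrArg Prod.snd h
          subst h1 h2
          exact ⟨fun e => hy e.symm, rfl⟩
      rw [this, Finset.card_map, Finset.card_product]
      simp [mul_comm]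
  rw [h1]
  have h4 : 2 * Q.card = (2 * n) * (2 * (n - 1)) := by rw [← h2, h3]
  have h5 : (2 * n) * (2 * (n - 1)) = 2 * (2 * n * (n - 1)) := by ring
  rw [h5] at h4
  exact Nat.eq_of_mul_eq_mul_left (by norm_num) h4

/-! ### events -/

/-- All the sets of `S` are clauses among the first `t` ones. -/
def InF (t : ℕ) (S : Finset (Finset (Lit n))) (e : Om (Cl n)) : Prop :=
  ∀ c ∈ S, ∃ h : c.card = 2 ∧ (c.image Prod.fst).card = 2, (e.symm ⟨c, h⟩ : ℕ) < t

/-- The clauses of `S`. -/
def sub (S : Finset (Finset (Lit n))) : Finset (Cl n) :=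
  S.subtype fun c => c.card = 2 ∧ (c.image Prod.fst).card = 2

lemma mem_sub {S : Finset (Finset (Lit n))} {c : Cl n} : c ∈ sub S ↔ c.1 ∈ S := by
  unfold sub; simp

lemma card_sub {S : Finset (Finset (Lit n))} (h : ∀ c ∈ S, Valid c) : (sub S).card = S.card := by
  unfold sub
  rw [Finset.card_subtype]
  congr 1
  exact Finset.filter_true_of_mem h

lemma InF_eq {t : ℕ} {S : Finset (Finset (Lit n))} (h : ∀ c ∈ S, Valid c) :
    InF t S = In t (sub S) := by
  funext e
  apply propext
  constructor
  · intro hS c hc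
    obtain ⟨h', h''⟩ := hS c.1 (mem_sub.1 hc)
    exact h''
  · intro hS c hc
    exact ⟨h c hc, hS ⟨c, h c hc⟩ (mem_sub.2 hc)⟩

lemma InF_valid {t : ℕ} {S : Finset (Finset (Lit n))} {e : Om (Cl n)} (h : InF t S e) :
    ∀ c ∈ S, Valid c := fun c hc => (h c hc).1

lemma InF_mono {t : ℕ} {S S' : Finset (Finset (Lit n))} {e : Om (Cl n)} (hs : S ⊆ S')
    (h : InF t S' e) : InF t S e := fun c hc => h c (hs hc)

lemma InF_union {t : ℕ} {S S' : Finset (Finset (Lit n))} {e : Om (Cl n)} 
    (h : InF t S e) (h' : InF t S' e) : InF t (S ∪ S') e := by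
  intro c hc
  rcases Finset.mem_union.1 hc with hc | hc
  · exact h c hc
  · exact h' c hc

lemma PP_false : PP (fun _ : Om (Cl n) => False) = 0 := by
  unfold PP; simp

lemma PP_InF_union_le (t : ℕ) (ht : t ≤ Nat.card (Cl n)) (S S' : Finset (Finset (Lit n)))
    (hd : Disjoint S S') :
    PP (InF t (S ∪ S')) ≤ PP (InF t S) * ((t : ℝ) / (Nat.card (Cl n) : ℝ)) ^ S'.card := by
  by_cases hv : ∀ c ∈ S ∪ S', Valid c
  · have hvS : ∀ c ∈ S, Valid c := fun c hc => hv c (Finset.mem_union_left _ hc)
    have hvS' : ∀ c ∈ S', Valid c := fun c hc => hv c (Finset.mem_union_right _ hc)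
    rw [InF_eq hv, InF_eq hvS]
    have e1 : sub (S ∪ S') = sub S ∪ sub S' := by
      ext c; simp [mem_sub]
    have e2 : Disjoint (sub S) (sub S') := by
      rw [Finset.disjoint_left] at hd ⊢
      intro c hc hc'
      exact hd (mem_sub.1 hc) (mem_sub.1 hc')
    rw [e1, ← card_sub hvS']
    exact PP_In_union_le t ht _ _ e2
  · have : PP (InF t (S ∪ S')) = 0 := by
      rw [← PP_false (n := n)]
      congr 1
      funext e
      apply propext
      constructor
      · intro h; exact hv (InF_valid h)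
      · intro h; exact h.elim
    rw [this]
    exact mul_nonneg (PP_nonneg _) (by positivity)

lemma PP_InF_le (t : ℕ) (ht : t ≤ Nat.card (Cl n)) (S : Finset (Finset (Lit n))) :
    PP (InF t S) ≤ ((t : ℝ) / (Nat.card (Cl n) : ℝ)) ^ S.card := by
  have := PP_InF_union_le t ht ∅ S (Finset.disjoint_empty_left _)
  rw [Finset.empty_union] at this
  refine this.trans ?_
  have h1 := PP_le_one (InF t (∅ : Finset (Finset (Lit n))))
  have h2 : (0 : ℝ) ≤ ((t : ℝ) / (Nat.card (Cl n) : ℝ)) ^ S.card := by positivity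
  nlinarith

lemma PP_InF_ge (t s : ℕ) (ht : t ≤ Nat.card (Cl n)) (hs : s ≤ t) (S : Finset (Finset (Lit n)))
    (hS : S.card ≤ s) (hv : ∀ c ∈ S, Valid c) :
    (((t : ℝ) - s) / (Nat.card (Cl n) : ℝ)) ^ S.card ≤ PP (InF t S) := by
  rw [InF_eq hv, ← card_sub hv]
  exact PP_In_ge t s ht hs _ (by rw [card_sub hv]; exact hS)

/-! ### walks -/

/-- The clauses of the first `r` arcs of the walk `u`. -/
def pcl (u : ℕ → Lit n) (r : ℕ) : Finset (Finset (Lit n)) :=
  (Finset.range r).image fun i => ac (u i) (u (i + 1))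

lemma mem_pcl {u : ℕ → Lit n} {r : ℕ} {c : Finset (Lit n)} :
    c ∈ pcl u r ↔ ∃ i, i < r ∧ ac (u i) (u (i + 1)) = c := by
  unfold pcl; simp

lemma pcl_congr {u v : ℕ → Lit n} {r : ℕ} (h : ∀ i ≤ r, u i = v i) : pcl u r = pcl v r := by
  unfold pcl
  refine Finset.image_congr ?_
  intro i hi
  have hi' : i < r := by simpa using hi
  simp only
  rw [h i (by omega), h (i + 1) (by omega)]

lemma InF_pcl {t : ℕ} {u : ℕ → Lit n} {r : ℕ} {e : Om (Cl n)} :
    InF t (pcl u r) e ↔ ∀ i < r, InF t {ac (u i) (u (i + 1))} e := by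
  constructor
  · intro h i hi
    refine InF_mono ?_ h
    intro c hc
    rw [Finset.mem_singleton] at hc
    exact mem_pcl.2 ⟨i, hi, hc.symm⟩
  · intro h c hc
    obtain ⟨i, hi, rfl⟩ := mem_pcl.1 hc
    exact h i hi _ (Finset.mem_singleton_self _)

/-- The number of clauses of a walk whose first `r` variables are distinct. -/
lemma card_pcl {u : ℕ → Lit n} {r : ℕ}
    (h1 : ∀ i < r, ∀ j < r, (u i).1 = (u j).1 → i = j) : (pcl u r).card = r := by
  unfold pcl
  rw [Finset.card_image_of_injOn]
  · simp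
  · have key : ∀ i j, i < j → j < r → ac (u i) (u (i + 1)) ≠ ac (u j) (u (j + 1)) := by
      intro i j hij hj h
      have hij' : (u i).1 ≠ (u j).1 := fun e => by have := h1 i (by omega) j hj e; omega
      have h3 : neg (u j) ∈ ac (u i) (u (i + 1)) := by rw [h]; simp [ac]
      rcases mem_ac.1 h3 with h3 | h3
      · rw [neg_inj] at h3
        exact hij' (by rw [h3])
      · have h4 : (u j).1 = (u (i + 1)).1 := by rw [← h3]; rfl
        have h5 : j = i + 1 := h1 j hj (i + 1) (by omega) h4
        subst h5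
        exact neg_ne _ h3
    intro i hi j hj h
    have hi' : i < r := by simpa using hi
    have hj' : j < r := by simpa using hj
    rcases lt_trichotomy i j with hij | hij | hij
    · exact absurd h (key i j hij hj')
    · exact hij
    · exact absurd h.symm (key j i hij hi')

end

end Pool.Agent.P8H97.TS
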