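import Pool.Agent.P8H97.TS.Num

/-!
# The disproof for `k = 2`
-/

set_option autoImplicit false

namespace Pool.Agent.P8H97.TS

open Finset

variable {n : ℕ}

/-- The event of the problem. -/
def Ev (e : Om (Cl n)) : Prop :=
  ∃ m : ℕ,
    (∀ j : ℕ, j < m → ∃ a : Fin n → Bool,
        ∀ c : Cl n, ((e.symm c : Fin _) : ℕ) < j → ∃ l ∈ c.val, a l.1 = l.2) ∧
    ∃ H : Finset (Cl n),
      H.Nonempty ∧
      (∀ c ∈ H, ((e.symm c : Fin _) : ℕ) < m) ∧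
      ∃ a : Fin n → Bool,
        (∀ c ∈ H, ∃ l ∈ c.val, a l.1 = l.2) ∧
        ∀ b : Fin n → Bool, (∀ c ∈ H, ∃ l ∈ c.val, b l.1 = l.2) →
          ∀ i : Fin n, (∃ c ∈ H, ∃ l ∈ c.val, l.1 = i) → b i = a i

lemma Ev_imp (t : ℕ) (e : Om (Cl n)) (h : Ev e) (hu : Unsat t e) :
    StrA (Gt t e) ∨ StrB (Gt t e) := by
  obtain ⟨m, hm, H, hne, hH, a, hsat, huniq⟩ := h
  have hmt : m ≤ t := by
    by_contra hlt
    push Not at hlt
    exact hu (hm t hlt)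
  have hG : ∀ c, (∃ h, (⟨c, h⟩ : Cl n) ∈ H) → Gt t e c := by
    rintro c ⟨h, hc⟩
    exact ⟨h, lt_of_lt_of_le (hH _ hc) hmt⟩
  rcases str_of_unique H hne a hsat huniq with h1 | h1
  · left
    obtain ⟨l, r, U, a1, a2, a3, a4, a5⟩ := h1
    exact ⟨l, r, U, a1, a2, a3, a4, fun c hc => hG c (a5 c hc)⟩
  · right
    obtain ⟨m, c, d, r, U, h, V, a1, a2, a3, a4, a5, a6, a7, a8, a9, a10, a11⟩ := h1
    exact ⟨m, c, d, r, U, h, V, a1, a2, a3, a4, a5, a6, a7, a8, a9, a10, fun c hc => hG c (a11 c hc)⟩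

open scoped Classical in
lemma PP_not (Q : Om (Cl n) → Prop) : PP (fun e => ¬ Q e) + PP Q ≤ 1 := by
  unfold PP
  rw [← add_div, ← Finset.sum_add_distrib, div_le_one (card_Om_pos)]
  refine (Finset.sum_le_card_nsmul _ _ 1 (fun e _ => ?_)).trans (le_of_eq (by simp))
  by_cases hq : Q e <;> simp [hq]

lemma Ev_le {q M t : ℕ} (h : Par q M n t) :
    PP (Ev (n := n)) ≤ 1 - 1 / (256 * 240 ^ 3) + 50 / M := by
  have h1 := unsat_ge h
  have h2 := strA_le h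
  have h3 := strB_le h
  have h4 := PP_diff (Unsat (n := n) t) (fun e => StrA (Gt t e) ∨ StrB (Gt t e))
  have h5 := PP_or (fun e : Om (Cl n) => StrA (Gt t e)) (fun e => StrB (Gt t e))
  set Q : Om (Cl n) → Prop := fun e => Unsat (n := n) t e ∧ ¬ (StrA (Gt t e) ∨ StrB (Gt t e)) with hQ
  have h6 : PP (Ev (n := n)) ≤ PP (fun e => ¬ Q e) := by
    refine PP_mono fun e he hq => hq.2 (Ev_imp t e he hq.1)
  have h7 : PP (fun e => ¬ Q e) + PP Q ≤ 1 := by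
    exact PP_not Q
  have e1 : (50 : ℝ) / M = 2 / M + 48 / M := by rw [← add_div]; norm_num
  linarith

theorem final : ¬ Filter.Tendsto (fun n : ℕ => PP (Ev (n := n))) Filter.atTop (nhds 1) := by
  intro h
  have h1 : ∀ᶠ n : ℕ in Filter.atTop, 1 - 1 / (512 * 240 ^ 3 : ℝ) < PP (Ev (n := n)) :=
    h.eventually (lt_mem_nhds (by norm_num))
  obtain ⟨n0, hn0⟩ := Filter.eventually_atTop.1 h1
  obtain ⟨q, hq1, hq2, hq3⟩ : ∃ q : ℕ, n0 ≤ q ∧ 1474560000 ≤ q ∧ 1 ≤ q :=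
    ⟨n0 + 1474560000, by omega, by omega, by omega⟩
  have hpar : Par q (240 * q) ((240 * q) ^ 3) ((240 * q) ^ 3 - (240 * q) ^ 2) :=
    ⟨by omega, rfl, rfl, rfl⟩
  have h2 := Ev_le hpar
  have h3 := hn0 ((240 * q) ^ 3) (by
    refine le_trans (b := 240 * q) (by omega) ?_
    exact Nat.le_self_pow (by norm_num) _)
  have h4 : (50 : ℝ) / ((240 * q : ℕ) : ℝ) ≤ 1 / (512 * 240 ^ 3) := by
    have hq0 : (1474560000 : ℝ) ≤ q := by exact_mod_cast hq2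
    push_cast
    rw [div_le_div_iff₀ (by positivity) (by positivity)]
    norm_num
    linarith
  have e1 : (1 : ℝ) / (256 * 240 ^ 3) = 1 / (512 * 240 ^ 3) + 1 / (512 * 240 ^ 3) := by norm_num
  linarith

end Pool.Agent.P8H97.TS
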