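import Pool.Agent.P8H97.TS.Snake

/-!
# Labelled snakes and their number
-/

set_option autoImplicit false

namespace Pool.Agent.P8H97.TS

open Finset

variable {n q : ℕ}

/-- Shapes. -/
abbrev Shp (q : ℕ) := Fin q × Fin q × Fin q

/-- first branching index -/
def jj (τ : Shp q) : ℕ := (τ.1 : ℕ) + 2
/-- second branching index -/
def kk (τ : Shp q) : ℕ := (τ.1 : ℕ) + 2 + (τ.2.1 : ℕ)
/-- length -/
def LL (τ : Shp q) : ℕ := (τ.1 : ℕ) + (τ.2.1 : ℕ) + (τ.2.2 : ℕ) + 3

lemma LL_pos (τ : Shp q) : 0 < LL τ := by unfold LL; omega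
lemma LL_le (τ : Shp q) : LL τ ≤ 3 * q := by
  have h1 := τ.1.2
  have h2 := τ.2.1.2
  have h3 := τ.2.2.2
  unfold LL; omega

/-- Labelled snakes. -/
abbrev Lab (n q : ℕ) := Σ τ : Shp q, (Fin (LL τ) ↪ Fin n) × (Fin (LL τ) → Bool)

/-- The literals of a labelled snake. -/
def ww (A : Lab n q) (i : ℕ) : Lit n :=
  (A.2.1 ⟨min (i - 1) (LL A.1 - 1), by have := LL_pos A.1; omega⟩,
    A.2.2 ⟨min (i - 1) (LL A.1 - 1), by have := LL_pos A.1; omega⟩)

lemma ww_succ (A : Lab n q) (i : Fin (LL A.1)) : ww A (i + 1) = (A.2.1 i, A.2.2 i) := by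
  have h : ∀ h', (⟨min ((i : ℕ) + 1 - 1) (LL A.1 - 1), h'⟩ : Fin (LL A.1)) = i := by
    intro h'
    apply Fin.ext
    have := i.2
    simp only
    omega
  unfold ww
  rw [h]

/-- The walk of a labelled snake. -/
def zz (A : Lab n q) (i : ℕ) : Lit n :=
  if i = 0 then neg (ww A (jj A.1)) else if i = LL A.1 + 1 then neg (ww A (kk A.1)) else ww A i

lemma zz_mid (A : Lab n q) {i : ℕ} (h1 : 1 ≤ i) (h2 : i ≤ LL A.1) : zz A i = ww A i := by
  unfold zz
  rw [if_neg (by omega), if_neg (by omega)]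

lemma ww_fst_inj (A : Lab n q) {i i' : ℕ} (h1 : 1 ≤ i) (h2 : i ≤ LL A.1) (h1' : 1 ≤ i')
    (h2' : i' ≤ LL A.1) (e : (ww A i).1 = (ww A i').1) : i = i' := by
  unfold ww at e
  have := A.2.1.injective e
  rw [Fin.mk.injEq] at this
  omega

lemma isSn (A : Lab n q) : IsSn (LL A.1) (jj A.1) (kk A.1) (zz A) := by
  have hj : 2 ≤ jj A.1 := by unfold jj; omega
  have hjk : jj A.1 ≤ kk A.1 := by unfold jj kk; omega
  have hkL : kk A.1 + 1 ≤ LL A.1 := by unfold kk LL; omega
  refine ⟨hj, hjk, hkL, ?_, ?_, ?_⟩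
  · rw [zz_mid A (i := jj A.1) (by omega) (by omega)]; rfl
  · rw [zz_mid A (i := kk A.1) (by omega) (by omega)]
    unfold zz
    rw [if_neg (by omega), if_pos rfl]
  · intro i i' h1 h2 h1' h2' e
    rw [zz_mid A h1 h2, zz_mid A h1' h2'] at e
    exact ww_fst_inj A h1 h2 h1' h2' e

/-- The clauses of a labelled snake. -/
def cl (A : Lab n q) : Finset (Finset (Lit n)) := pcl (zz A) (LL A.1 + 1)

lemma card_cl (A : Lab n q) : (cl A).card = LL A.1 + 1 := (isSn A).card

lemma lab_ext {A B : Lab n q} (hL : LL A.1 = LL B.1) (hj : jj A.1 = jj B.1) (hk : kk A.1 = kk B.1)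
    (h : ∀ i ≤ LL A.1, zz A i = zz B i) : A = B := by
  obtain ⟨τ, p⟩ := A
  obtain ⟨τ', p'⟩ := B
  have hτ : τ = τ' := by
    unfold jj at hj
    unfold kk at hk
    unfold LL at hL
    simp only at hj hk hL
    refine Prod.ext (Fin.ext ?_) (Prod.ext (Fin.ext ?_) (Fin.ext ?_)) <;> omega
  subst hτ
  have hp : ∀ i : Fin (LL τ), (p.1 i, p.2 i) = (p'.1 i, p'.2 i) := by
    intro i
    have := h (i + 1) (by simp only; omega)
    rw [zz_mid _ (by omega) (by simp only; omega), zz_mid _ (by omega) (by simp only; omega)] at this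
    rw [ww_succ, ww_succ] at this
    exact this
  congr 1
  refine Prod.ext ?_ ?_
  · ext i
    have := hp i
    rw [Prod.mk.injEq] at this
    rw [this.1]
  · funext i
    have := hp i
    rw [Prod.mk.injEq] at this
    exact this.2

/-- At most 32 labelled snakes have the same set of clauses. -/
lemma card_fiber_le (S : Finset (Finset (Lit n))) :
    ((Finset.univ : Finset (Lab n q)).filter fun B => cl B = S).card ≤ 32 := by
  classical
  rcases Finset.eq_empty_or_nonempty ((Finset.univ : Finset (Lab n q)).filter fun B => cl B = S)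
    with h | ⟨A, hA⟩
  · rw [h]; simp
  have hA := (Finset.mem_filter.1 hA).2
  set T : Finset (Lit n) := {zz A 0, zz A (kk A.1)} with hT
  set T' : Finset (Lit n) := T.biUnion (succs S) with hT'
  have hTc : T.card ≤ 2 := Finset.card_le_two
  have hTc' : T'.card ≤ 4 := by
    refine Finset.card_biUnion_le.trans ?_
    refine (Finset.sum_le_card_nsmul T _ 2 ?_).trans ?_
    · intro x _
      rw [← hA]
      exact (isSn A).card_succs x
    · rw [smul_eq_mul]; omega
  have hle : ((Finset.univ : Finset (Lab n q)).filter fun B => cl B = S).card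
      ≤ (T ×ˢ (T' ×ˢ T')).card := by
    refine Finset.card_le_card_of_injOn
      (fun B => (zz B 0, (zz B 1, zz B (kk B.1 + 1)))) ?_ ?_
    · intro B hB
      have hB := (Finset.mem_filter.1 hB).2
      have hsn := isSn B
      have hj := hsn.hj
      have hjk := hsn.hjk
      have hkL := hsn.hkL
      have k0 : zz B 0 ∈ T := by
        obtain ⟨y, y', a, b, c⟩ := hsn.z0_two
        have e : pcl (zz B) (LL B.1 + 1) = pcl (zz A) (LL A.1 + 1) := hB.trans hA.symm
        rw [e] at a b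
        rcases (isSn A).two_succ a b c with h | h
        · rw [h]; simp [hT]
        · rw [h]; simp [hT]
      have k1 : zz B (kk B.1) ∈ T := by
        obtain ⟨y, y', a, b, c⟩ := hsn.zk_two
        have e : pcl (zz B) (LL B.1 + 1) = pcl (zz A) (LL A.1 + 1) := hB.trans hA.symm
        rw [e] at a b
        rcases (isSn A).two_succ a b c with h | h
        · rw [h]; simp [hT]
        · rw [h]; simp [hT]
      have k2 : zz B 1 ∈ T' := by
        rw [hT', Finset.mem_biUnion]
        refine ⟨_, k0, ?_⟩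
        unfold succs
        rw [Finset.mem_filter]
        refine ⟨Finset.mem_univ _, ?_⟩
        rw [← hB]
        exact mem_pcl.2 ⟨0, by omega, rfl⟩
      have k3 : zz B (kk B.1 + 1) ∈ T' := by
        rw [hT', Finset.mem_biUnion]
        refine ⟨_, k1, ?_⟩
        unfold succs
        rw [Finset.mem_filter]
        refine ⟨Finset.mem_univ _, ?_⟩
        rw [← hB]
        exact mem_pcl.2 ⟨kk B.1, by omega, rfl⟩
      simp only [Finset.coe_product, Set.mem_prod, Finset.mem_coe]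
      exact ⟨k0, k2, k3⟩
    · intro B hB B' hB' e
      have hB := (Finset.mem_filter.1 hB).2
      have hB' := (Finset.mem_filter.1 hB').2
      simp only [Prod.mk.injEq] at e
      obtain ⟨a, b, c, d⟩ := (isSn B).unique (isSn B') (hB.trans hB'.symm) e.1 e.2.1 e.2.2
      exact lab_ext a b c d
  refine hle.trans ?_
  rw [Finset.card_product, Finset.card_product]
  calc T.card * (T'.card * T'.card) ≤ 2 * (4 * 4) := by gcongr
    _ = 32 := by norm_num

/-- The variables of a labelled snake. -/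
def vars (A : Lab n q) : Finset (Fin n) := (Finset.Icc 1 (LL A.1)).image fun i => (zz A i).1

lemma card_vars_le (A : Lab n q) : (vars A).card ≤ LL A.1 := by
  unfold vars
  refine Finset.card_image_le.trans ?_
  simp

lemma zz_mem_vars (A : Lab n q) {i : ℕ} (hi : i ≤ LL A.1 + 1) : (zz A i).1 ∈ vars A := by
  have hsn := isSn A
  have hj := hsn.hj
  have hjk := hsn.hjk
  have hkL := hsn.hkL
  have key : ∀ i, 1 ≤ i → i ≤ LL A.1 → (zz A i).1 ∈ vars A := fun i h1 h2 =>
    Finset.mem_image_of_mem _ (Finset.mem_Icc.2 ⟨h1, h2⟩)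
  rcases Nat.eq_zero_or_pos i with rfl | h0
  · rw [hsn.z0]; exact key _ (by omega) (by omega)
  · rcases Nat.lt_or_ge (LL A.1) i with h1 | h1
    · have : i = LL A.1 + 1 := by omega
      subst this
      rw [hsn.zL]; exact key _ (by omega) (by omega)
    · exact key i h0 h1

lemma mem_cl_vars (A : Lab n q) {c : Finset (Lit n)} (hc : c ∈ cl A) {x : Lit n} (hx : x ∈ c) :
    x.1 ∈ vars A := by
  obtain ⟨i, hi, rfl⟩ := mem_pcl.1 hc
  rcases mem_ac.1 hx with rfl | rfl
  · exact zz_mem_vars A (by omega)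
  · exact zz_mem_vars A (by omega)

lemma card_lab_fiber (τ : Shp q) :
    Fintype.card ((Fin (LL τ) ↪ Fin n) × (Fin (LL τ) → Bool)) = n.descFactorial (LL τ) * 2 ^ (LL τ) := by
  rw [Fintype.card_prod, Fintype.card_embedding_eq, Fintype.card_fun]
  simp

/-- Data of an ear. -/
def mkEar (r : ℕ) (w0 : Lit n) (v : Fin (r - 1) → Lit n) (last : Lit n) (i : ℕ) : Lit n :=
  if i = 0 then w0 else if h : i - 1 < r - 1 then v ⟨i - 1, h⟩ else last

lemma mkEar_spec (r : ℕ) (hr : 1 ≤ r) (u : ℕ → Lit n) :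
    ∀ i ≤ r, u i = mkEar r (u 0) (fun i => u (i + 1)) (u r) i := by
  intro i hi
  unfold mkEar
  split_ifs with h1 h2
  · rw [h1]
  · simp only
    congr 1
    omega
  · congr 1
    omega

/-- Validity of an ear of the clause set `SA` with variable set `V`. -/
def EarOK (V : Finset (Fin n)) (SA : Finset (Finset (Lit n))) (r : ℕ) (u : ℕ → Lit n) : Prop :=
  (u 0).1 ∈ V ∧ (∀ i, 1 ≤ i → i < r → (u i).1 ∉ V) ∧
      (∀ i i', 1 ≤ i → i < r → 1 ≤ i' → i' < r → (u i).1 = (u i').1 → i = i') ∧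
      ac (u 0) (u 1) ∉ SA

lemma EarOK.card {V : Finset (Fin n)} {SA : Finset (Finset (Lit n))} {r : ℕ} {u : ℕ → Lit n}
    (h : EarOK V SA r u) : (pcl u r).card = r := by
  obtain ⟨h0, h1, h2, _⟩ := h
  refine card_pcl ?_
  intro i hi j hj e
  rcases Nat.eq_zero_or_pos i with rfl | hi0
  · rcases Nat.eq_zero_or_pos j with rfl | hj0
    · rfl
    · exact absurd (e ▸ h0) (h1 j hj0 hj)
  · rcases Nat.eq_zero_or_pos j with rfl | hj0
    · exact absurd (e.symm ▸ h0) (h1 i hi0 hi)
    · exact h2 i j hi0 hi hj0 hj e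

lemma EarOK.disj {V : Finset (Fin n)} {SA : Finset (Finset (Lit n))} {r : ℕ} {u : ℕ → Lit n}
    (hSA : ∀ c ∈ SA, ∀ x ∈ c, x.1 ∈ V)
    (h : EarOK V SA r u) : Disjoint SA (pcl u r) := by
  obtain ⟨h0, h1, h2, h3⟩ := h
  rw [Finset.disjoint_right]
  intro c hc hcA
  obtain ⟨i, hi, rfl⟩ := mem_pcl.1 hc
  rcases Nat.eq_zero_or_pos i with rfl | hi0
  · exact h3 hcA
  · exact h1 i hi0 hi (hSA _ hcA (neg (u i)) (mem_ac.2 (Or.inl rfl)))

lemma EarOK.le {V : Finset (Fin n)} {SA : Finset (Finset (Lit n))} {r : ℕ} {u : ℕ → Lit n}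
    (h : EarOK V SA r u) : r ≤ n + 1 := by
  obtain ⟨h0, h1, h2, h3⟩ := h
  have : (Finset.Ico 1 r).card ≤ (Finset.univ : Finset (Fin n)).card := by
    refine Finset.card_le_card_of_injOn (fun i => (u i).1) (fun _ _ => Finset.mem_coe.2 (Finset.mem_univ _)) ?_
    intro i hi j hj e
    have hi := Finset.mem_Ico.1 (Finset.mem_coe.1 hi)
    have hj := Finset.mem_Ico.1 (Finset.mem_coe.1 hj)
    exact h2 i j hi.1 hi.2 hj.1 hj.2 e
  simp at this
  omega

end Pool.Agent.P8H97.TS
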