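import Pool.Agent.P8H97.TS.ProbU

/-!
# Numerical part
-/

set_option autoImplicit false

namespace Pool.Agent.P8H97.TS

open Finset

lemma geo0 {θ : ℝ} (h0 : 0 ≤ θ) (h1 : θ < 1) (m : ℕ) :
    ∑ i ∈ Finset.range m, θ ^ i ≤ (1 - θ)⁻¹ := by
  have hs := summable_geometric_of_lt_one h0 h1
  have := hs.sum_le_tsum (Finset.range m) (fun i _ => pow_nonneg h0 i)
  rwa [tsum_geometric_of_lt_one h0 h1] at this

lemma geoK {θ : ℝ} (h0 : 0 ≤ θ) (h1 : θ < 1) (k m : ℕ) :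
    ∑ i ∈ Finset.range m, ((i + k).choose k : ℝ) * θ ^ i ≤ 1 / (1 - θ) ^ (k + 1) := by
  have hn : ‖θ‖ < 1 := by rwa [Real.norm_of_nonneg h0]
  have hs := summable_choose_mul_geometric_of_norm_lt_one k hn
  have := hs.sum_le_tsum (Finset.range m) (fun i _ => mul_nonneg (by positivity) (pow_nonneg h0 i))
  rwa [tsum_choose_mul_geometric_of_norm_lt_one k hn] at this

lemma geo1 {θ : ℝ} (h0 : 0 ≤ θ) (h1 : θ < 1) (m : ℕ) :
    ∑ i ∈ Finset.range m, ((i : ℝ) + 1) * θ ^ i ≤ 1 / (1 - θ) ^ 2 := by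
  have := geoK h0 h1 1 m
  simpa using this

lemma geo3 {θ : ℝ} (h0 : 0 ≤ θ) (h1 : θ < 1) (m : ℕ) :
    ∑ i ∈ Finset.range m, ((i : ℝ) + 1) ^ 3 * θ ^ i ≤ 6 * (1 / (1 - θ) ^ 4) := by
  refine le_trans ?_ (mul_le_mul_of_nonneg_left (geoK h0 h1 3 m) (by norm_num))
  rw [Finset.mul_sum]
  refine Finset.sum_le_sum fun i _ => ?_
  rw [← mul_assoc]
  refine mul_le_mul_of_nonneg_right ?_ (pow_nonneg h0 i)
  have h := Nat.choose_mul_factorial_mul_factorial (n := i + 3) (k := 3) (by omega)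
  have e : i + 3 - 3 = i := by omega
  rw [e] at h
  have h2 : (i + 3).factorial = (i + 3) * ((i + 2) * ((i + 1) * i.factorial)) := by
    rw [Nat.factorial_succ, Nat.factorial_succ, Nat.factorial_succ]
  have h3 : (i + 3).choose 3 * 6 = (i + 3) * ((i + 2) * (i + 1)) := by
    have hp : 0 < i.factorial := Nat.factorial_pos i
    apply Nat.eq_of_mul_eq_mul_right hp
    have h6 : Nat.factorial 3 = 6 := rfl
    rw [h6, h2] at h
    rw [h]; ring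
  have h4 : ((i + 3).choose 3 : ℝ) * 6 = ((i : ℝ) + 3) * (((i : ℝ) + 2) * ((i : ℝ) + 1)) := by
    exact_mod_cast h3
  rw [mul_comm, h4]
  have hi : (0 : ℝ) ≤ i := by positivity
  nlinarith [mul_nonneg hi hi, mul_nonneg (mul_nonneg hi hi) hi]

/-- The parameters. -/
structure Par (q M n t : ℕ) : Prop where
  hq : 1 ≤ q
  hM : M = 240 * q
  hn : n = M ^ 3
  ht : t = M ^ 3 - M ^ 2

variable {q M n t : ℕ}

namespace Par

lemma hM240 (h : Par q M n t) : 240 ≤ M := by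
  have := h.hq
  have := h.hM
  omega

lemma MR (h : Par q M n t) : (240 : ℝ) ≤ M := by exact_mod_cast h.hM240

lemma nR (h : Par q M n t) : (n : ℝ) = (M : ℝ) ^ 3 := by rw [h.hn]; push_cast; rfl

lemma tR (h : Par q M n t) : (t : ℝ) = (M : ℝ) ^ 3 - (M : ℝ) ^ 2 := by
  rw [h.ht, Nat.cast_sub]
  · push_cast; rfl
  · exact Nat.pow_le_pow_right (by have := h.hM240; omega) (by norm_num)

lemma n_pos (h : Par q M n t) : 1 ≤ n := by
  rw [h.hn]; exact Nat.one_le_pow _ _ (by have := h.hM240; omega)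

lemma t_le_n (h : Par q M n t) : t ≤ n := by
  rw [h.hn, h.ht]; exact Nat.sub_le _ _

lemma NR (h : Par q M n t) : ((Nat.card (Cl n) : ℕ) : ℝ) = 2 * (n : ℝ) * ((n : ℝ) - 1) := by
  rw [card_Cl]
  push_cast [Nat.cast_sub h.n_pos]
  ring

lemma n_big (h : Par q M n t) : 240 ≤ n := by
  rw [h.hn]
  have := h.hM240
  calc 240 ≤ M := this
    _ = M ^ 1 := (pow_one M).symm
    _ ≤ M ^ 3 := Nat.pow_le_pow_right (by omega) (by norm_num)

lemma t_le (h : Par q M n t) : t ≤ Nat.card (Cl n) := by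
  rw [card_Cl]
  have h1 := h.t_le_n
  have h2 := h.n_big
  have h3 : n ≤ 2 * n * (n - 1) := by
    calc n = n * 1 := (mul_one n).symm
      _ ≤ (2 * n) * (n - 1) := Nat.mul_le_mul (by omega) (by omega)
  omega

/-- The branching parameter. -/
lemma theta_eq (h : Par q M n t) : 2 * (n : ℝ) * ((t : ℝ) / (Nat.card (Cl n) : ℝ))
    = (M : ℝ) ^ 2 / ((M : ℝ) ^ 2 + M + 1) := by
  have hM := h.MR
  have hn := h.nR
  have h1 : (0 : ℝ) < n := by rw [hn]; positivity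
  have h2 : (0 : ℝ) < (n : ℝ) - 1 := by
    rw [hn]
    have : (1 : ℝ) < (M : ℝ) ^ 3 := one_lt_pow₀ (by linarith) (by norm_num)
    linarith
  rw [h.NR]
  have e1 : 2 * (n : ℝ) * ((t : ℝ) / (2 * (n : ℝ) * ((n : ℝ) - 1))) = (t : ℝ) / ((n : ℝ) - 1) := by
    field_simp
  rw [e1, div_eq_div_iff h2.ne' (by positivity), h.tR, hn]
  ring

lemma theta_lt (h : Par q M n t) :
    2 * (n : ℝ) * ((t : ℝ) / (Nat.card (Cl n) : ℝ)) < 1 := by
  have hM := h.MR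
  rw [h.theta_eq, div_lt_one (by positivity)]
  linarith

lemma D_le (h : Par q M n t) :
    (1 - 2 * (n : ℝ) * ((t : ℝ) / (Nat.card (Cl n) : ℝ)))⁻¹ ≤ 2 * M := by
  have hM := h.MR
  rw [h.theta_eq]
  have hpos : (0 : ℝ) < (M : ℝ) ^ 2 + M + 1 := by positivity
  have e : 1 - (M : ℝ) ^ 2 / ((M : ℝ) ^ 2 + M + 1) = ((M : ℝ) + 1) / ((M : ℝ) ^ 2 + M + 1) := by
    field_simp; ring
  rw [e, inv_div, div_le_iff₀ (by positivity)]
  nlinarith

lemma p_le (h : Par q M n t) : (t : ℝ) / (Nat.card (Cl n) : ℝ) ≤ 1 / (2 * (n : ℝ)) := by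
  have h1 : (0 : ℝ) < n := by exact_mod_cast h.n_pos
  rw [le_div_iff₀ (by positivity)]
  have := h.theta_lt
  linarith

end Par

/-- The bound for the ears. -/
lemma ear_num (h : Par q M n t) (L : ℝ) (hL0 : 0 ≤ L) (hL : L ≤ 3 * q) :
    ∑ r ∈ Finset.range (n + 1), (2 * L) * (2 * (n : ℝ)) ^ r * (2 * L + 2 * r) *
        ((t : ℝ) / (Nat.card (Cl n) : ℝ)) ^ (r + 1) ≤ 1 / 4 := by
  have hp1 := h.p_le
  have hθ := h.theta_lt
  have hD := h.D_le
  have hM := h.MR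
  have hn := h.nR
  have hqM : (M : ℝ) = 240 * q := by rw [h.hM]; push_cast; ring
  set p : ℝ := (t : ℝ) / (Nat.card (Cl n) : ℝ) with hp
  have hp0 : 0 ≤ p := by positivity
  set θ : ℝ := 2 * (n : ℝ) * p with hθd
  have hθ0 : 0 ≤ θ := by positivity
  set D : ℝ := (1 - θ)⁻¹ with hDd
  have hD0 : 0 ≤ D := inv_nonneg.2 (by linarith)
  have e1 : ∀ r : ℕ, (2 * L) * (2 * (n : ℝ)) ^ r * (2 * L + 2 * r) * p ^ (r + 1)
      = p * (2 * L) * (2 * L * θ ^ r + 2 * (r * θ ^ r)) := by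
    intro r
    rw [hθd, mul_pow, pow_succ]
    ring
  rw [Finset.sum_congr rfl (fun r _ => e1 r), ← Finset.mul_sum, Finset.sum_add_distrib,
    ← Finset.mul_sum, ← Finset.mul_sum]
  have g0 := geo0 hθ0 hθ (n + 1)
  have g1 := geo1 hθ0 hθ (n + 1)
  have g1' : ∑ i ∈ Finset.range (n + 1), (i : ℝ) * θ ^ i ≤ D ^ 2 := by
    refine le_trans (Finset.sum_le_sum fun i _ => ?_) (g1.trans (le_of_eq ?_))
    · exact mul_le_mul_of_nonneg_right (by linarith) (pow_nonneg hθ0 i)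
    · rw [hDd, one_div, inv_pow]
  rw [← hDd] at g0
  have h2 : 2 * L * ∑ i ∈ Finset.range (n + 1), θ ^ i + 2 * ∑ i ∈ Finset.range (n + 1), (i : ℝ) * θ ^ i
      ≤ 2 * L * (2 * M) + 2 * (2 * M) ^ 2 := by
    have a1 : 2 * L * ∑ i ∈ Finset.range (n + 1), θ ^ i ≤ 2 * L * (2 * M) :=
      mul_le_mul_of_nonneg_left (g0.trans hD) (by positivity)
    have a2 : D ^ 2 ≤ (2 * (M : ℝ)) ^ 2 := pow_le_pow_left₀ hD0 hD 2
    linarith
  have h3 : p * (2 * L) ≤ 1 / (2 * (n : ℝ)) * (2 * L) :=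
    mul_le_mul_of_nonneg_right hp1 (by positivity)
  have hpos : 0 ≤ 2 * L * (2 * (M : ℝ)) + 2 * (2 * (M : ℝ)) ^ 2 := by positivity
  have h4 : p * (2 * L) * (2 * L * ∑ i ∈ Finset.range (n + 1), θ ^ i + 2 * ∑ i ∈ Finset.range (n + 1), (i : ℝ) * θ ^ i)
      ≤ 1 / (2 * (n : ℝ)) * (2 * L) * (2 * L * (2 * M) + 2 * (2 * M) ^ 2) := by
    refine (mul_le_mul_of_nonneg_left h2 (by positivity)).trans ?_
    exact mul_le_mul_of_nonneg_right h3 hpos
  refine h4.trans ?_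
  rw [hn]
  have hLM : L ≤ M / 80 := by rw [hqM]; linarith
  have hM0 : (0 : ℝ) < M := by linarith
  have e2 : 1 / (2 * (M : ℝ) ^ 3) * (2 * L) * (2 * L * (2 * M) + 2 * (2 * M) ^ 2)
      = (4 * L ^ 2 * M + 8 * L * M ^ 2) / (M : ℝ) ^ 3 := by
    field_simp; ring
  rw [e2, div_le_div_iff₀ (by positivity) (by norm_num)]
  have h5 : L ^ 2 ≤ (M / 80) ^ 2 := pow_le_pow_left₀ hL0 hLM 2
  have h6 : L ^ 2 * M ≤ (M / 80) ^ 2 * M := mul_le_mul_of_nonneg_right h5 hM0.le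
  have h7 : L * (M : ℝ) ^ 2 ≤ M / 80 * (M : ℝ) ^ 2 := mul_le_mul_of_nonneg_right hLM (by positivity)
  have h8 : (0 : ℝ) ≤ (M : ℝ) ^ 3 := by positivity
  nlinarith

lemma dis_num (h : Par q M n t) :
    (q : ℝ) ^ 3 * ((t : ℝ) / (Nat.card (Cl n) : ℝ)) ≤ 1 / 4 := by
  have hp1 := h.p_le
  have hqM : (M : ℝ) = 240 * q := by rw [h.hM]; push_cast; ring
  have hn := h.nR
  have hq : (0 : ℝ) < q := by exact_mod_cast h.hq
  refine (mul_le_mul_of_nonneg_left hp1 (by positivity)).trans ?_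
  rw [hn, hqM]
  have : (q : ℝ) ^ 3 * (1 / (2 * (240 * (q : ℝ)) ^ 3)) = 1 / (2 * 240 ^ 3) := by
    field_simp
  rw [this]
  norm_num

/-- The snakes found with their neighbourhoods. -/
lemma EA_ge (h : Par q M n t) (A : Lab n q) : PP (InF t (cl A)) / 2 ≤ PP (EA t A) := by
  have h1 := PP_EarEv_le t h.t_le A
  have h2 := PP_DisEv_le t h.t_le A h.theta_lt.le
  have h3 := ear_num h (LL A.1 : ℝ) (by positivity) (by exact_mod_cast LL_le A.1)
  have h4 := dis_num h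
  have hP := PP_nonneg (InF t (cl A))
  have h5 : PP (EarEv t A) ≤ PP (InF t (cl A)) * (1 / 4) :=
    h1.trans (mul_le_mul_of_nonneg_left h3 hP)
  have h6 : PP (DisEv t A) ≤ PP (InF t (cl A)) * (1 / 4) :=
    h2.trans (mul_le_mul_of_nonneg_left h4 hP)
  have h7 := PP_diff (InF t (cl A)) (fun e => EarEv t A e ∨ DisEv t A e)
  have h8 := PP_or (EarEv t A) (DisEv t A)
  have h9 : PP (fun e => InF t (cl A) e ∧ ¬ (EarEv t A e ∨ DisEv t A e)) ≤ PP (EA t A) :=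
    PP_mono fun e he => EA_compl t A e he.1 (fun h' => he.2 (Or.inl h')) (fun h' => he.2 (Or.inr h'))
  linarith

/-- Lower bound for the expected number of snakes. -/
lemma sum_InF_ge (h : Par q M n t) :
    1 / (4 * 240 ^ 3) ≤ ∑ A : Lab n q, PP (InF t (cl A)) := by
  have hM := h.MR
  have hn := h.nR
  have htR := h.tR
  have hqM : (M : ℝ) = 240 * q := by rw [h.hM]; push_cast; ring
  have hq : (0 : ℝ) < q := by exact_mod_cast h.hq
  set s : ℕ := 3 * q + 1 with hs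
  have hsR : (s : ℝ) = 3 * q + 1 := by rw [hs]; push_cast; ring
  have hs_le : (s : ℝ) ≤ M / 60 := by
    rw [hsR, hqM]
    have : (1 : ℝ) ≤ q := by exact_mod_cast h.hq
    linarith
  have hst : s ≤ t := by
    have : (s : ℝ) ≤ t := by
      rw [htR]
      have h1 : (M : ℝ) ^ 3 - (M : ℝ) ^ 2 = (M : ℝ) ^ 2 * ((M : ℝ) - 1) := by ring
      rw [h1]
      nlinarith [mul_nonneg (by linarith : (0:ℝ) ≤ (M:ℝ) - 1) (by linarith : (0:ℝ) ≤ (M:ℝ) - 1)]
    exact_mod_cast this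
  have hsn : s ≤ n := hst.trans h.t_le_n
  have hn0 : (0 : ℝ) < n := by exact_mod_cast h.n_pos
  have hn1 : (0 : ℝ) < (n : ℝ) - 1 := by
    have : (240 : ℝ) ≤ n := by exact_mod_cast h.n_big
    linarith
  have hN := h.NR
  set y : ℝ := ((t : ℝ) - s) / (Nat.card (Cl n) : ℝ) with hy
  have hts : (0 : ℝ) ≤ (t : ℝ) - s := by
    have : (s : ℝ) ≤ t := by exact_mod_cast hst
    linarith
  have hy0 : 0 ≤ y := by rw [hy]; positivity
  set κ : ℝ := 2 * ((n : ℝ) - s) * y with hκ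
  have hns : (0 : ℝ) ≤ (n : ℝ) - s := by
    have : (s : ℝ) ≤ n := by exact_mod_cast hsn
    linarith
  have hκ1 : 1 - 2 / (M : ℝ) ≤ κ := by
    rw [hκ, hy, hN]
    have hM0 : (0 : ℝ) < M := by linarith
    have e1 : 2 * ((n : ℝ) - s) * (((t : ℝ) - s) / (2 * (n : ℝ) * ((n : ℝ) - 1)))
        = (((n : ℝ) - s) * ((t : ℝ) - s)) / ((n : ℝ) * ((n : ℝ) - 1)) := by
      field_simp
    rw [e1, le_div_iff₀ (by positivity)]
    have e2 : (1 - 2 / (M : ℝ)) * ((n : ℝ) * ((n : ℝ) - 1)) ≤ (1 - 2 / (M : ℝ)) * (n : ℝ) ^ 2 := by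
      refine mul_le_mul_of_nonneg_left (by nlinarith) ?_
      rw [sub_nonneg, div_le_one hM0]; linarith
    refine e2.trans ?_
    have e3 : (1 - 2 / (M : ℝ)) * (n : ℝ) ^ 2 = (M : ℝ) ^ 6 - 2 * (M : ℝ) ^ 5 := by
      rw [hn]; field_simp
    rw [e3, htR, hn]
    have hs0 : (0 : ℝ) ≤ s := by positivity
    have hM2 : (0 : ℝ) ≤ (M : ℝ) ^ 2 := by positivity
    have hM3 : (0 : ℝ) ≤ (M : ℝ) ^ 3 := by positivity
    have h3 : (s : ℝ) * (M : ℝ) ^ 3 ≤ M / 60 * (M : ℝ) ^ 3 := mul_le_mul_of_nonneg_right hs_le hM3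
    have h4 : (0 : ℝ) ≤ (s : ℝ) * (M : ℝ) ^ 2 := by positivity
    have h5 : (0 : ℝ) ≤ (s : ℝ) ^ 2 := by positivity
    have h6 : (M : ℝ) ^ 4 ≤ (M : ℝ) ^ 5 := pow_le_pow_right₀ (by linarith) (by norm_num)
    have e4 : ((M : ℝ) ^ 3 - s) * ((M : ℝ) ^ 3 - (M : ℝ) ^ 2 - s)
        = (M : ℝ) ^ 6 - (M : ℝ) ^ 5 - 2 * (s * (M : ℝ) ^ 3) + s * (M : ℝ) ^ 2 + s ^ 2 := by ring
    rw [e4]
    have e5 : M / 60 * (M : ℝ) ^ 3 = (M : ℝ) ^ 4 / 60 := by ring
    rw [e5] at h3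
    have h7 : (0 : ℝ) ≤ (M : ℝ) ^ 4 := by positivity
    linarith
  have hy1 : κ / (2 * (n : ℝ)) ≤ y := by
    rw [div_le_iff₀ (by positivity), hκ]
    have : (0 : ℝ) ≤ s := by positivity
    nlinarith
  have hstep : ∀ A : Lab n q, y ^ (LL A.1 + 1) ≤ PP (InF t (cl A)) := by
    intro A
    have h1 := PP_InF_ge t s h.t_le hst (cl A) (by rw [card_cl, hs]; have := LL_le A.1; omega)
      (isSn A).valid
    rwa [card_cl] at h1
  refine le_trans ?_ (Finset.sum_le_sum fun A _ => hstep A)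
  rw [sum_lab (fun l => y ^ (l + 1))]
  have hτ : ∀ τ : Shp q, 1 / (4 * (n : ℝ)) ≤
      ((n.descFactorial (LL τ) * 2 ^ (LL τ) : ℕ) : ℝ) * y ^ (LL τ + 1) := by
    intro τ
    have hLs : LL τ ≤ s := by have := LL_le τ; omega
    have h1 : (2 * ((n : ℝ) - s)) ^ (LL τ) ≤ ((n.descFactorial (LL τ) * 2 ^ (LL τ) : ℕ) : ℝ) := by
      have h2 := Nat.pow_sub_le_descFactorial n (LL τ)
      have h3 : (n - s) ^ (LL τ) ≤ n.descFactorial (LL τ) :=
        (Nat.pow_le_pow_left (by omega) _).trans h2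
      have h4 : ((n : ℝ) - s) ^ (LL τ) ≤ (n.descFactorial (LL τ) : ℝ) := by
        rw [← Nat.cast_sub hsn]; exact_mod_cast h3
      rw [mul_pow]
      push_cast
      rw [mul_comm]
      exact mul_le_mul_of_nonneg_right h4 (by positivity)
    have hM0 : (0 : ℝ) < M := by linarith
    have hκ0 : 0 ≤ κ := by rw [hκ]; positivity
    have h5 : (1 : ℝ) / 2 ≤ κ ^ (LL τ + 1) := by
      have h6 : (0 : ℝ) ≤ 1 - 2 / (M : ℝ) := by
        rw [sub_nonneg, div_le_one hM0]; linarith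
      have h7 := pow_le_pow_left₀ h6 hκ1 (LL τ + 1)
      refine le_trans ?_ h7
      have h8 := one_add_mul_le_pow (a := -(2 / (M : ℝ))) (by
        have : 2 / (M : ℝ) ≤ 1 := by rw [div_le_one hM0]; linarith
        linarith) (LL τ + 1)
      have e1 : 1 + -(2 / (M : ℝ)) = 1 - 2 / (M : ℝ) := by ring
      rw [e1] at h8
      refine le_trans ?_ h8
      have h9 : ((LL τ + 1 : ℕ) : ℝ) ≤ M / 60 := by
        refine le_trans ?_ hs_le
        have : LL τ + 1 ≤ s := by have := LL_le τ; omega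
        exact_mod_cast this
      have h10 : ((LL τ + 1 : ℕ) : ℝ) * (2 / (M : ℝ)) ≤ M / 60 * (2 / (M : ℝ)) :=
        mul_le_mul_of_nonneg_right h9 (by positivity)
      have e2 : (M : ℝ) / 60 * (2 / (M : ℝ)) = 1 / 30 := by field_simp; norm_num
      rw [e2] at h10
      have e3 : ((LL τ + 1 : ℕ) : ℝ) * -(2 / (M : ℝ)) = -(((LL τ + 1 : ℕ) : ℝ) * (2 / (M : ℝ))) := by ring
      rw [e3]
      linarith
    calc 1 / (4 * (n : ℝ)) = (1 / 2) / (2 * (n : ℝ)) := by field_simp; norm_num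
      _ ≤ κ ^ (LL τ + 1) / (2 * (n : ℝ)) := div_le_div_of_nonneg_right h5 (by positivity)
      _ = κ ^ (LL τ) * (κ / (2 * (n : ℝ))) := by rw [pow_succ]; ring
      _ ≤ κ ^ (LL τ) * y := mul_le_mul_of_nonneg_left hy1 (by positivity)
      _ = (2 * ((n : ℝ) - s)) ^ (LL τ) * y ^ (LL τ + 1) := by rw [hκ, mul_pow, pow_succ]; ring
      _ ≤ _ := mul_le_mul_of_nonneg_right h1 (by positivity)
  refine le_trans ?_ (Finset.card_nsmul_le_sum _ _ _ (fun τ _ => hτ τ))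
  rw [nsmul_eq_mul, Finset.card_univ]
  simp only [Fintype.card_prod, Fintype.card_fin, Nat.cast_mul]
  rw [hn, hqM]
  apply le_of_eq
  field_simp

/-- Unsatisfiability has probability bounded below. -/
lemma unsat_ge (h : Par q M n t) : 1 / (256 * 240 ^ 3) ≤ PP (Unsat (n := n) t) := by
  have h1 := sum_InF_ge h
  have h2 := sum_EA_le (n := n) (q := q) t
  have h3 : ∑ A : Lab n q, PP (InF t (cl A)) / 2 ≤ ∑ A : Lab n q, PP (EA t A) :=
    Finset.sum_le_sum fun A _ => EA_ge h A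
  rw [← Finset.sum_div] at h3
  have h4 : (1 : ℝ) / (4 * 240 ^ 3) / 2 ≤ 32 * PP (Unsat (n := n) t) := by linarith
  have e : (1 : ℝ) / (256 * 240 ^ 3) = 1 / (4 * 240 ^ 3) / 2 / 32 := by norm_num
  rw [e]
  linarith

lemma strA_le (h : Par q M n t) : PP (fun e : Om (Cl n) => StrA (Gt t e)) ≤ 2 / M := by
  refine (PP_StrA_le t h.t_le).trans ?_
  have hp1 := h.p_le
  have hθ := h.theta_lt
  have hD := h.D_le
  have hM := h.MR
  have hn := h.nR
  set p : ℝ := (t : ℝ) / (Nat.card (Cl n) : ℝ) with hp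
  have hp0 : 0 ≤ p := by positivity
  set θ : ℝ := 2 * (n : ℝ) * p with hθd
  have hθ0 : 0 ≤ θ := by positivity
  set D : ℝ := (1 - θ)⁻¹ with hDd
  have hD0 : 0 ≤ D := inv_nonneg.2 (by linarith)
  have e1 : ∀ l : ℕ, ((l : ℝ) + 1) * (2 * (n : ℝ)) ^ (l + 1) * p ^ (l + 2)
      = p * θ * (((l : ℝ) + 1) * θ ^ l) := by
    intro l
    rw [hθd, mul_pow, pow_succ, pow_succ, pow_succ]
    ring
  rw [Finset.sum_congr rfl (fun l _ => e1 l), ← Finset.mul_sum]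
  have g1 := geo1 hθ0 hθ n
  have e2 : 1 / (1 - θ) ^ 2 = D ^ 2 := by rw [hDd, one_div, inv_pow]
  rw [e2] at g1
  have a2 : D ^ 2 ≤ (2 * (M : ℝ)) ^ 2 := pow_le_pow_left₀ hD0 hD 2
  have h3 : p * θ ≤ 1 / (2 * (n : ℝ)) := by
    calc p * θ ≤ p * 1 := mul_le_mul_of_nonneg_left hθ.le hp0
      _ = p := mul_one p
      _ ≤ _ := hp1
  calc p * θ * ∑ i ∈ Finset.range n, ((i : ℝ) + 1) * θ ^ i ≤ p * θ * (2 * (M : ℝ)) ^ 2 :=
        mul_le_mul_of_nonneg_left (g1.trans a2) (by positivity)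
    _ ≤ 1 / (2 * (n : ℝ)) * (2 * (M : ℝ)) ^ 2 := mul_le_mul_of_nonneg_right h3 (by positivity)
    _ = 2 / M := by
        have hM0 : (0 : ℝ) < M := by linarith
        rw [hn]; field_simp

lemma strB_le (h : Par q M n t) : PP (fun e : Om (Cl n) => StrB (Gt t e)) ≤ 48 / M := by
  refine (PP_StrB_le t h.t_le).trans ?_
  have hp1 := h.p_le
  have hθ := h.theta_lt
  have hD := h.D_le
  have hM := h.MR
  have hn := h.nR
  set p : ℝ := (t : ℝ) / (Nat.card (Cl n) : ℝ) with hp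
  have hp0 : 0 ≤ p := by positivity
  set θ : ℝ := 2 * (n : ℝ) * p with hθd
  have hθ0 : 0 ≤ θ := by positivity
  set D : ℝ := (1 - θ)⁻¹ with hDd
  have hD0 : 0 ≤ D := inv_nonneg.2 (by linarith)
  have e1 : ∀ m h : ℕ, ((m : ℝ) + 1) ^ 3 * (2 * (n : ℝ)) ^ (m + 1) * (2 * (n : ℝ)) ^ h *
        p ^ (m + 2 + (h + 1)) = p ^ 2 * θ * ((((m : ℝ) + 1) ^ 3 * θ ^ m) * θ ^ h) := by
    intro m h
    have e3 : p ^ (m + 2 + (h + 1)) = p ^ 2 * p * p ^ m * p ^ h := by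
      rw [show m + 2 + (h + 1) = 2 + 1 + m + h by ring, pow_add, pow_add, pow_add, pow_one]
    rw [hθd, e3]
    ring
  rw [Finset.sum_congr rfl (fun m _ => Finset.sum_congr rfl (fun h _ => e1 m h))]
  have e2 : ∑ m ∈ Finset.range n, ∑ h ∈ Finset.range (n + 1),
      p ^ 2 * θ * ((((m : ℝ) + 1) ^ 3 * θ ^ m) * θ ^ h)
      = p ^ 2 * θ * ((∑ m ∈ Finset.range n, ((m : ℝ) + 1) ^ 3 * θ ^ m) *
        ∑ h ∈ Finset.range (n + 1), θ ^ h) := by
    rw [Finset.sum_mul_sum, Finset.mul_sum]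
    refine Finset.sum_congr rfl fun m _ => ?_
    rw [Finset.mul_sum]
  rw [e2]
  have g0 := geo0 hθ0 hθ (n + 1)
  have g3 := geo3 hθ0 hθ n
  have e4 : 1 / (1 - θ) ^ 4 = D ^ 4 := by rw [hDd, one_div, inv_pow]
  rw [e4] at g3
  rw [← hDd] at g0
  have a2 : D ^ 4 ≤ (2 * (M : ℝ)) ^ 4 := pow_le_pow_left₀ hD0 hD 4
  have h3 : p ^ 2 * θ ≤ (1 / (2 * (n : ℝ))) ^ 2 := by
    calc p ^ 2 * θ ≤ p ^ 2 * 1 := mul_le_mul_of_nonneg_left hθ.le (by positivity)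
      _ = p ^ 2 := mul_one _
      _ ≤ _ := pow_le_pow_left₀ hp0 hp1 2
  have h4 : (∑ m ∈ Finset.range n, ((m : ℝ) + 1) ^ 3 * θ ^ m) * ∑ h ∈ Finset.range (n + 1), θ ^ h
      ≤ 6 * (2 * (M : ℝ)) ^ 4 * (2 * M) := by
    refine mul_le_mul (g3.trans ?_) (g0.trans hD) (Finset.sum_nonneg fun i _ => pow_nonneg hθ0 i)
      (by positivity)
    linarith
  calc p ^ 2 * θ * ((∑ m ∈ Finset.range n, ((m : ℝ) + 1) ^ 3 * θ ^ m) *
        ∑ h ∈ Finset.range (n + 1), θ ^ h)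
      ≤ p ^ 2 * θ * (6 * (2 * (M : ℝ)) ^ 4 * (2 * M)) :=
        mul_le_mul_of_nonneg_left h4 (by positivity)
    _ ≤ (1 / (2 * (n : ℝ))) ^ 2 * (6 * (2 * (M : ℝ)) ^ 4 * (2 * M)) :=
        mul_le_mul_of_nonneg_right h3 (by positivity)
    _ = 48 / M := by
        have hM0 : (0 : ℝ) < M := by linarith
        rw [hn]; field_simp; norm_num

end Pool.Agent.P8H97.TS
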