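import Pool.Agent.P8H97.TS.Lab

/-!
# Union bounds around a snake
-/

set_option autoImplicit false

namespace Pool.Agent.P8H97.TS

open Finset

variable {n q : ℕ}

lemma EarOK.congr {V : Finset (Fin n)} {SA : Finset (Finset (Lit n))} {r : ℕ} (hr : 1 ≤ r)
    {u u' : ℕ → Lit n} (h : EarOK V SA r u) (e : ∀ i ≤ r, u i = u' i) : EarOK V SA r u' := by
  obtain ⟨h0, h1, h2, h3⟩ := h
  refine ⟨by rw [← e 0 (by omega)]; exact h0, ?_, ?_, ?_⟩
  · intro i hi hir
    rw [← e i hir.le]; exact h1 i hi hir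
  · intro i i' hi hir hi' hir' he
    rw [← e i hir.le, ← e i' hir'.le] at he
    exact h2 i i' hi hir hi' hir' he
  · rw [← e 0 (by omega), ← e 1 hr]; exact h3

/-- Literals on `V`. -/
def litW (V : Finset (Fin n)) : Finset (Lit n) := V ×ˢ Finset.univ

lemma mem_litW {V : Finset (Fin n)} {x : Lit n} : x ∈ litW V ↔ x.1 ∈ V := by
  unfold litW; simp

lemma card_litW (V : Finset (Fin n)) : (litW V).card = 2 * V.card := by
  unfold litW; simp [Finset.card_product, mul_comm]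

/-- Possible end points. -/
def lst (V : Finset (Fin n)) {r : ℕ} (v : Fin r → Lit n) : Finset (Lit n) :=
  litW V ∪ Finset.univ.biUnion fun i => {v i, neg (v i)}

lemma card_lst (V : Finset (Fin n)) {r : ℕ} (v : Fin r → Lit n) :
    (lst V v).card ≤ 2 * V.card + 2 * r := by
  unfold lst
  refine (Finset.card_union_le _ _).trans ?_
  rw [card_litW]
  refine Nat.add_le_add_left ?_ _
  refine (Finset.card_biUnion_le).trans ?_
  refine (Finset.sum_le_card_nsmul _ _ 2 (fun i _ => Finset.card_le_two)).trans ?_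
  simp [mul_comm]

/-- The event that the snake `A` is present with an ear. -/
def EarEv (t : ℕ) (A : Lab n q) (e : Om (Cl n)) : Prop :=
  ∃ (r : ℕ) (u : ℕ → Lit n), 1 ≤ r ∧ EarOK (vars A) (cl A) r u ∧
    ((u r).1 ∈ vars A ∨ ∃ i, 1 ≤ i ∧ i < r ∧ (u r).1 = (u i).1) ∧ InF t (cl A ∪ pcl u r) e

lemma PP_EarEv_le (t : ℕ) (ht : t ≤ Nat.card (Cl n)) (A : Lab n q) :
    PP (EarEv t A) ≤ PP (InF t (cl A)) * ∑ r ∈ Finset.range (n + 1),
      (2 * (LL A.1 : ℝ)) * (2 * (n : ℝ)) ^ r * (2 * (LL A.1 : ℝ) + 2 * r) *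
        ((t : ℝ) / (Nat.card (Cl n) : ℝ)) ^ (r + 1) := by
  classical
  set p : ℝ := (t : ℝ) / (Nat.card (Cl n) : ℝ) with hp
  have hp0 : 0 ≤ p := by positivity
  set V := vars A with hV
  have hVc : (V.card : ℝ) ≤ (LL A.1 : ℝ) := by exact_mod_cast card_vars_le A
  let Q : (r : ℕ) → Lit n → (Fin r → Lit n) → Lit n → Om (Cl n) → Prop := fun r w0 v l e =>
    EarOK V (cl A) (r + 1) (mkEar (r + 1) w0 v l) ∧
      InF t (cl A ∪ pcl (mkEar (r + 1) w0 v l) (r + 1)) e
  have hQ : ∀ r w0 v l, PP (Q r w0 v l) ≤ PP (InF t (cl A)) * p ^ (r + 1) := by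
    intro r w0 v l
    by_cases hok : EarOK V (cl A) (r + 1) (mkEar (r + 1) w0 v l)
    · have h1 : PP (Q r w0 v l) ≤ PP (InF t (cl A ∪ pcl (mkEar (r + 1) w0 v l) (r + 1))) :=
        PP_mono fun e he => he.2
      refine h1.trans ?_
      have hd := hok.disj (fun c hc x hx => mem_cl_vars A hc hx)
      have := PP_InF_union_le t ht _ _ hd
      rwa [hok.card] at this
    · have : PP (Q r w0 v l) = 0 := by
        rw [← PP_false (n := n)]
        congr 1
        funext e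
        exact propext ⟨fun h => hok h.1, fun h => h.elim⟩
      rw [this]
      exact mul_nonneg (PP_nonneg _) (by positivity)
  have hsub : ∀ e, EarEv t A e → ∃ r ∈ Finset.range (n + 1), ∃ w0 ∈ litW V,
      ∃ v ∈ (Finset.univ : Finset (Fin r → Lit n)), ∃ l ∈ lst V v, Q r w0 v l e := by
    rintro e ⟨r, u, hr, hok, hend, hin⟩
    have hle := hok.le
    obtain ⟨r', rfl⟩ : ∃ r', r = r' + 1 := ⟨r - 1, by omega⟩
    have hspec := mkEar_spec (r' + 1) hr u
    refine ⟨r', Finset.mem_range.2 (by omega), u 0, mem_litW.2 hok.1,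
      fun i => u (i + 1), Finset.mem_univ _, u (r' + 1), ?_, hok.congr hr hspec, ?_⟩
    · unfold lst
      rcases hend with h | ⟨i, h1, h2, h3⟩
      · exact Finset.mem_union_left _ (mem_litW.2 h)
      · refine Finset.mem_union_right _ (Finset.mem_biUnion.2 ⟨⟨i - 1, by omega⟩, Finset.mem_univ _, ?_⟩)
        have e1 : i - 1 + 1 = i := by omega
        simp only [e1]
        rcases eq_or_eq_neg h3 with h | h
        · rw [h]; simp
        · rw [h]; simp
    · rw [pcl_congr hspec] at hin; exact hin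
  refine (PP_mono hsub).trans ?_
  refine (PP_exists _ _).trans ?_
  rw [Finset.mul_sum]
  refine Finset.sum_le_sum fun r _ => ?_
  refine (PP_exists _ _).trans ?_
  have hin : ∀ w0, PP (fun e => ∃ v ∈ (Finset.univ : Finset (Fin r → Lit n)), ∃ l ∈ lst V v, Q r w0 v l e)
      ≤ (2 * (n : ℝ)) ^ r * (2 * (LL A.1 : ℝ) + 2 * r) * (PP (InF t (cl A)) * p ^ (r + 1)) := by
    intro w0
    refine (PP_exists _ _).trans ?_
    have h2 : ∀ v : Fin r → Lit n, PP (fun e => ∃ l ∈ lst V v, Q r w0 v l e)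
        ≤ (2 * (LL A.1 : ℝ) + 2 * r) * (PP (InF t (cl A)) * p ^ (r + 1)) := by
      intro v
      refine (PP_exists _ _).trans ?_
      refine (Finset.sum_le_card_nsmul _ _ _ (fun l _ => hQ r w0 v l)).trans ?_
      rw [nsmul_eq_mul]
      refine mul_le_mul_of_nonneg_right ?_ (mul_nonneg (PP_nonneg _) (by positivity))
      have := card_lst V v
      have h3 : ((lst V v).card : ℝ) ≤ 2 * V.card + 2 * r := by exact_mod_cast this
      linarith
    refine (Finset.sum_le_card_nsmul _ _ _ (fun v _ => h2 v)).trans ?_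
    rw [nsmul_eq_mul, Finset.card_univ, Fintype.card_fun]
    simp only [Fintype.card_prod, Fintype.card_fin, Fintype.card_bool, Nat.cast_pow, Nat.cast_mul,
      Nat.cast_ofNat]
    rw [mul_comm (n : ℝ) 2]
    exact le_of_eq (by ring)
  refine (Finset.sum_le_card_nsmul _ _ _ (fun w0 _ => hin w0)).trans ?_
  rw [nsmul_eq_mul, card_litW]
  have h0 : 0 ≤ (2 * (n : ℝ)) ^ r * (2 * (LL A.1 : ℝ) + 2 * r) * (PP (InF t (cl A)) * p ^ (r + 1)) :=
    mul_nonneg (by positivity) (mul_nonneg (PP_nonneg _) (by positivity))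
  calc ((2 * V.card : ℕ) : ℝ) * ((2 * (n : ℝ)) ^ r * (2 * (LL A.1 : ℝ) + 2 * r) * (PP (InF t (cl A)) * p ^ (r + 1)))
      ≤ (2 * (LL A.1 : ℝ)) * ((2 * (n : ℝ)) ^ r * (2 * (LL A.1 : ℝ) + 2 * r) * (PP (InF t (cl A)) * p ^ (r + 1))) := by
        refine mul_le_mul_of_nonneg_right ?_ h0
        push_cast
        linarith
    _ = _ := by ring

/-- The event that the snake `A` is present with a disjoint snake. -/
def DisEv (t : ℕ) (A : Lab n q) (e : Om (Cl n)) : Prop :=
  ∃ B : Lab n q, Disjoint (cl A) (cl B) ∧ InF t (cl A ∪ cl B) e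

lemma sum_lab (f : ℕ → ℝ) : ∑ B : Lab n q, f (LL B.1)
    = ∑ τ : Shp q, ((n.descFactorial (LL τ) * 2 ^ (LL τ) : ℕ) : ℝ) * f (LL τ) := by
  rw [Fintype.sum_sigma]
  refine Finset.sum_congr rfl fun τ _ => ?_
  simp only
  rw [Finset.sum_const, nsmul_eq_mul, Finset.card_univ, card_lab_fiber]

lemma PP_DisEv_le (t : ℕ) (ht : t ≤ Nat.card (Cl n)) (A : Lab n q)
    (hθ : 2 * (n : ℝ) * ((t : ℝ) / (Nat.card (Cl n) : ℝ)) ≤ 1) :
    PP (DisEv t A) ≤ PP (InF t (cl A)) * ((q : ℝ) ^ 3 * ((t : ℝ) / (Nat.card (Cl n) : ℝ))) := by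
  classical
  set p : ℝ := (t : ℝ) / (Nat.card (Cl n) : ℝ) with hp
  have hp0 : 0 ≤ p := by positivity
  have h1 : PP (DisEv t A) ≤ ∑ B : Lab n q, PP (InF t (cl A)) * p ^ (LL B.1 + 1) := by
    refine (PP_mono (R := fun e => ∃ B ∈ (Finset.univ : Finset (Lab n q)), Disjoint (cl A) (cl B) ∧
      InF t (cl A ∪ cl B) e) (fun e ⟨B, hB⟩ => ⟨B, Finset.mem_univ _, hB⟩)).trans ?_
    refine (PP_exists _ _).trans (Finset.sum_le_sum fun B _ => ?_)
    by_cases hd : Disjoint (cl A) (cl B)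
    · have := PP_InF_union_le t ht _ _ hd
      rw [card_cl] at this
      exact (PP_mono fun e he => he.2).trans this
    · have : PP (fun e => Disjoint (cl A) (cl B) ∧ InF t (cl A ∪ cl B) e) = 0 := by
        rw [← PP_false (n := n)]
        congr 1
        funext e
        exact propext ⟨fun h => hd h.1, fun h => h.elim⟩
      rw [this]
      exact mul_nonneg (PP_nonneg _) (by positivity)
  refine h1.trans ?_
  rw [← Finset.mul_sum]
  refine mul_le_mul_of_nonneg_left ?_ (PP_nonneg _)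
  rw [sum_lab (fun l => p ^ (l + 1))]
  have h2 : ∀ τ : Shp q, ((n.descFactorial (LL τ) * 2 ^ (LL τ) : ℕ) : ℝ) * p ^ (LL τ + 1) ≤ p := by
    intro τ
    have h3 : ((n.descFactorial (LL τ) * 2 ^ (LL τ) : ℕ) : ℝ) ≤ (2 * (n : ℝ)) ^ (LL τ) := by
      have : n.descFactorial (LL τ) * 2 ^ (LL τ) ≤ (2 * n) ^ (LL τ) := by
        rw [mul_pow, mul_comm]
        exact Nat.mul_le_mul_left _ (Nat.descFactorial_le_pow n _)
      exact_mod_cast this
    calc ((n.descFactorial (LL τ) * 2 ^ (LL τ) : ℕ) : ℝ) * p ^ (LL τ + 1)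
        ≤ (2 * (n : ℝ)) ^ (LL τ) * p ^ (LL τ + 1) := mul_le_mul_of_nonneg_right h3 (by positivity)
      _ = (2 * (n : ℝ) * p) ^ (LL τ) * p := by rw [pow_succ, mul_pow]; ring
      _ ≤ 1 * p := by
        refine mul_le_mul_of_nonneg_right ?_ hp0
        exact pow_le_one₀ (by positivity) hθ
      _ = p := one_mul _
  refine (Finset.sum_le_card_nsmul _ _ _ (fun τ _ => h2 τ)).trans ?_
  rw [nsmul_eq_mul, Finset.card_univ]
  simp only [Fintype.card_prod, Fintype.card_fin, Nat.cast_mul]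
  exact le_of_eq (by ring)

/-- The event that `A` is present and every snake of the family present is contained in `A`. -/
def EA (t : ℕ) (A : Lab n q) (e : Om (Cl n)) : Prop :=
  InF t (cl A) e ∧ ∀ B : Lab n q, InF t (cl B) e → cl B ⊆ cl A

lemma EA_compl (t : ℕ) (A : Lab n q) (e : Om (Cl n)) (h : InF t (cl A) e)
    (h' : ¬ EarEv t A e) (h'' : ¬ DisEv t A e) : EA t A e := by
  refine ⟨h, fun B hB => ?_⟩
  by_contra hsub
  rw [Finset.not_subset] at hsub
  obtain ⟨c, hcB, hcA⟩ := hsub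
  obtain ⟨y, Λ, hΛ, hper, harc, hcov⟩ := (isSn B).closed_walk
  by_cases hs : ∃ s, (y s).1 ∈ vars A
  · obtain ⟨s, hs⟩ := hs
    obtain ⟨r, u, hr, h0, h1, h2, h3, h4, h5⟩ := exists_ear (vars A) (cl A) (cl B)
      (fun c hc x hx => mem_cl_vars A hc hx) y Λ hΛ hper harc hcov s hs c hcB hcA
    exact h' ⟨r, u, hr, ⟨h0, h1, h2, h4⟩, h3, InF_union h (InF_mono h5 hB)⟩
  · push Not at hs
    refine h'' ⟨B, ?_, InF_union h hB⟩
    rw [Finset.disjoint_left]
    intro c hc hcB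
    obtain ⟨i, _, e1⟩ := hcov c hcB 0
    have : (y (i + 1)).1 ∈ vars A := mem_cl_vars A hc (by rw [← e1]; exact mem_ac.2 (Or.inr rfl))
    exact hs _ this

/-- Unsatisfiability of the first `t` clauses. -/
def Unsat (t : ℕ) (e : Om (Cl n)) : Prop :=
  ¬ ∃ a : Fin n → Bool, ∀ c : Cl n, (e.symm c : ℕ) < t → ∃ l ∈ c.1, a l.1 = l.2

lemma unsat_of_InF (t : ℕ) (A : Lab n q) (e : Om (Cl n)) (h : InF t (cl A) e) : Unsat t e := by
  rintro ⟨a, ha⟩
  refine (isSn A).unsat a fun c hc => ?_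
  obtain ⟨hv, hlt⟩ := h c hc
  exact ha ⟨c, hv⟩ hlt

lemma sum_EA_le (t : ℕ) : ∑ A : Lab n q, PP (EA t A) ≤ 32 * PP (Unsat (n := n) t) := by
  classical
  have := sum_PP_le (C := Cl n) (Finset.univ : Finset (Lab n q)) (fun A => EA t A) (Unsat t) 32
    (fun e A _ h => unsat_of_InF t A e h.1) ?_
  · simpa using this
  intro e
  rcases Finset.eq_empty_or_nonempty ((Finset.univ : Finset (Lab n q)).filter fun A => EA t A e)
    with h | ⟨A, hA⟩
  · convert Nat.zero_le 32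
    rw [Finset.card_eq_zero]
    convert h
  have hA := (Finset.mem_filter.1 hA).2
  refine le_trans (Finset.card_le_card ?_) (card_fiber_le (n := n) (q := q) (cl A))
  intro B hB
  have hB := (Finset.mem_filter.1 hB).2
  refine Finset.mem_filter.2 ⟨Finset.mem_univ _, ?_⟩
  exact Finset.Subset.antisymm (hA.2 B hB.1) (hB.2 A hA.1)

end Pool.Agent.P8H97.TS
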