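import Pool.Agent.P8H97.TS.Uniq

/-!
# Union bound for the two structures
-/

set_option autoImplicit false

namespace Pool.Agent.P8H97.TS

open Finset

variable {n : ℕ}

/-- A walk whose last point is its `c`-th one. -/
def mkC (l c : ℕ) (v : Fin (l + 1) → Lit n) (i : ℕ) : Lit n :=
  v ⟨(if i ≤ l then i else c) % (l + 1), Nat.mod_lt _ (Nat.succ_pos l)⟩

lemma mkC_spec (l c : ℕ) (hc : c ≤ l) (U : ℕ → Lit n) (hU : U (l + 1) = U c) :
    ∀ i ≤ l + 1, U i = mkC l c (fun i => U i) i := by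
  intro i hi
  unfold mkC
  simp only
  split_ifs with h
  · rw [Nat.mod_eq_of_lt (by omega)]
  · rw [Nat.mod_eq_of_lt (by omega), ← hU]
    congr 1
    omega

lemma chord_notMem {l r : ℕ} {U : ℕ → Lit n} (hr : 1 ≤ r) (hrl : r < l)
    (h : ∀ i < l, ∀ j < l, (U i).1 = (U j).1 → i = j) :
    ({U 0, U r} : Finset (Lit n)) ∉ pcl U l := by
  intro hmem
  obtain ⟨i, hi, e⟩ := mem_pcl.1 hmem
  have h1 : neg (U i) ∈ ({U 0, U r} : Finset (Lit n)) := by rw [← e]; simp [ac]
  rcases Finset.mem_insert.1 h1 with h2 | h2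
  · have := h i hi 0 (by omega) (by rw [← h2]; rfl)
    subst this
    exact neg_ne _ h2
  · rw [Finset.mem_singleton] at h2
    have := h i hi r hrl (by rw [← h2]; rfl)
    subst this
    exact neg_ne _ h2

lemma card_chord {l r : ℕ} {U : ℕ → Lit n} (hr : 1 ≤ r) (hrl : r < l)
    (h : ∀ i < l, ∀ j < l, (U i).1 = (U j).1 → i = j) :
    (insert {U 0, U r} (pcl U l)).card = l + 1 := by
  rw [Finset.card_insert_of_notMem (chord_notMem hr hrl h), card_pcl h]

lemma le_of_dist {l : ℕ} {U : ℕ → Lit n} (h : ∀ i < l, ∀ j < l, (U i).1 = (U j).1 → i = j) :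
    l ≤ n := by
  have : (Finset.range l).card ≤ (Finset.univ : Finset (Fin n)).card := by
    refine Finset.card_le_card_of_injOn (fun i => (U i).1) (fun _ _ => Finset.mem_coe.2 (Finset.mem_univ _)) ?_
    intro i hi j hj e
    have hi := Finset.mem_range.1 (Finset.mem_coe.1 hi)
    have hj := Finset.mem_range.1 (Finset.mem_coe.1 hj)
    exact h i hi j hj e
  simpa using this

/-- Membership of a clause in the formula. -/
def Gt (t : ℕ) (e : Om (Cl n)) (c : Finset (Lit n)) : Prop :=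
  ∃ h : c.card = 2 ∧ (c.image Prod.fst).card = 2, (e.symm ⟨c, h⟩ : ℕ) < t

lemma PP_StrA_le (t : ℕ) (ht : t ≤ Nat.card (Cl n)) :
    PP (fun e : Om (Cl n) => StrA (Gt t e)) ≤ ∑ l ∈ Finset.range n,
      ((l : ℝ) + 1) * (2 * (n : ℝ)) ^ (l + 1) * ((t : ℝ) / (Nat.card (Cl n) : ℝ)) ^ (l + 2) := by
  classical
  set p : ℝ := (t : ℝ) / (Nat.card (Cl n) : ℝ) with hp
  have hp0 : 0 ≤ p := by positivity
  let Q : (l : ℕ) → ℕ → (Fin (l + 1) → Lit n) → Om (Cl n) → Prop := fun l r v e =>
    (1 ≤ r ∧ r < l + 1 ∧ (∀ i < l + 1, ∀ j < l + 1, (mkC l 0 v i).1 = (mkC l 0 v j).1 → i = j)) ∧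
      InF t (insert {mkC l 0 v 0, mkC l 0 v r} (pcl (mkC l 0 v) (l + 1))) e
  have hQ : ∀ l r v, PP (Q l r v) ≤ p ^ (l + 2) := by
    intro l r v
    by_cases hok : (1 ≤ r ∧ r < l + 1 ∧
      (∀ i < l + 1, ∀ j < l + 1, (mkC l 0 v i).1 = (mkC l 0 v j).1 → i = j))
    · refine (PP_mono fun e he => he.2).trans ?_
      refine (PP_InF_le t ht _).trans ?_
      rw [card_chord hok.1 hok.2.1 hok.2.2]
    · have : PP (Q l r v) = 0 := by
        rw [← PP_false (n := n)]
        congr 1
        funext e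
        exact propext ⟨fun h => hok h.1, fun h => h.elim⟩
      rw [this]
      positivity
  have hsub : ∀ e, StrA (Gt t e) → ∃ l ∈ Finset.range n, ∃ r ∈ Finset.range (l + 1),
      ∃ v ∈ (Finset.univ : Finset (Fin (l + 1) → Lit n)), Q l r v e := by
    rintro e ⟨l, r, U, hr, hrl, hd, hU, hin⟩
    have hle := le_of_dist hd
    obtain ⟨l', rfl⟩ : ∃ l', l = l' + 1 := ⟨l - 1, by omega⟩
    have hspec := mkC_spec l' 0 (by omega) U hU
    refine ⟨l', Finset.mem_range.2 (by omega), r, Finset.mem_range.2 hrl, fun i => U i,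
      Finset.mem_univ _, ⟨hr, hrl, ?_⟩, ?_⟩
    · intro i hi j hj e
      rw [← hspec i (by omega), ← hspec j (by omega)] at e
      exact hd i hi j hj e
    · rw [← hspec 0 (by omega), ← hspec r (by omega)]
      have := pcl_congr hspec
      rw [← this]
      exact hin
  refine (PP_mono hsub).trans ?_
  refine (PP_exists _ _).trans ?_
  refine Finset.sum_le_sum fun l _ => ?_
  refine (PP_exists _ _).trans ?_
  have h2 : ∀ r, PP (fun e => ∃ v ∈ (Finset.univ : Finset (Fin (l + 1) → Lit n)), Q l r v e)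
      ≤ (2 * (n : ℝ)) ^ (l + 1) * p ^ (l + 2) := by
    intro r
    refine (PP_exists _ _).trans ?_
    refine (Finset.sum_le_card_nsmul _ _ _ (fun v _ => hQ l r v)).trans ?_
    rw [nsmul_eq_mul, Finset.card_univ, Fintype.card_fun]
    simp only [Fintype.card_prod, Fintype.card_fin, Fintype.card_bool, Nat.cast_pow, Nat.cast_mul,
      Nat.cast_ofNat]
    rw [mul_comm (n : ℝ) 2]
  refine (Finset.sum_le_card_nsmul _ _ _ (fun r _ => h2 r)).trans ?_
  rw [nsmul_eq_mul, Finset.card_range]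
  push_cast
  exact le_of_eq (by ring)

lemma PP_StrB_le (t : ℕ) (ht : t ≤ Nat.card (Cl n)) :
    PP (fun e : Om (Cl n) => StrB (Gt t e)) ≤ ∑ m ∈ Finset.range n, ∑ h ∈ Finset.range (n + 1),
      ((m : ℝ) + 1) ^ 3 * (2 * (n : ℝ)) ^ (m + 1) * (2 * (n : ℝ)) ^ h *
        ((t : ℝ) / (Nat.card (Cl n) : ℝ)) ^ (m + 2 + (h + 1)) := by
  classical
  set p : ℝ := (t : ℝ) / (Nat.card (Cl n) : ℝ) with hp
  have hp0 : 0 ≤ p := by positivity
  let Q : (m h : ℕ) → ℕ → ℕ → ℕ → (Fin (m + 1) → Lit n) → (Fin h → Lit n) → Om (Cl n) → Prop :=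
    fun m h c d r v w e =>
    (c < m + 1 ∧ 1 ≤ r ∧ r < m + 1 ∧
      (∀ i < m + 1, ∀ j < m + 1, (mkC m c v i).1 = (mkC m c v j).1 → i = j) ∧
      EarOK ((Finset.range (m + 1)).image fun i => (mkC m c v i).1)
        (insert {mkC m c v 0, mkC m c v r} (pcl (mkC m c v) (m + 1))) (h + 1)
        (mkEar (h + 1) (mkC m c v d) w (mkC m c v 0))) ∧
      InF t (insert {mkC m c v 0, mkC m c v r} (pcl (mkC m c v) (m + 1)) ∪
        pcl (mkEar (h + 1) (mkC m c v d) w (mkC m c v 0)) (h + 1)) e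
  have hQ : ∀ m h c d r v w, PP (Q m h c d r v w) ≤ p ^ (m + 2 + (h + 1)) := by
    intro m h c d r v w
    by_cases hok : (c < m + 1 ∧ 1 ≤ r ∧ r < m + 1 ∧
      (∀ i < m + 1, ∀ j < m + 1, (mkC m c v i).1 = (mkC m c v j).1 → i = j) ∧
      EarOK ((Finset.range (m + 1)).image fun i => (mkC m c v i).1)
        (insert {mkC m c v 0, mkC m c v r} (pcl (mkC m c v) (m + 1))) (h + 1)
        (mkEar (h + 1) (mkC m c v d) w (mkC m c v 0)))
    · refine (PP_mono fun e he => he.2).trans ?_
      obtain ⟨hc, hr, hrm, hd, hear⟩ := hok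
      have hUm : mkC m c v (m + 1) = mkC m c v c := by
        unfold mkC
        simp only [if_pos (show c ≤ m by omega), if_neg (show ¬ m + 1 ≤ m by omega)]
      have hdis := hear.disj (by
        intro x hx y hy
        rcases Finset.mem_insert.1 hx with rfl | hx
        · rcases Finset.mem_insert.1 hy with rfl | hy
          · exact Finset.mem_image.2 ⟨(0 : ℕ), Finset.mem_range.2 (by omega), rfl⟩
          · rw [Finset.mem_singleton] at hy
            subst hy
            exact Finset.mem_image.2 ⟨r, Finset.mem_range.2 (by omega), rfl⟩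
        · obtain ⟨k, hk, rfl⟩ := mem_pcl.1 hx
          rcases mem_ac.1 hy with rfl | rfl
          · exact Finset.mem_image.2 ⟨k, Finset.mem_range.2 (by omega), rfl⟩
          · rcases Nat.eq_or_lt_of_le (show k + 1 ≤ m + 1 by omega) with h7 | h7
            · rw [h7, hUm]
              exact Finset.mem_image.2 ⟨c, Finset.mem_range.2 (by omega), rfl⟩
            · exact Finset.mem_image.2 ⟨k + 1, Finset.mem_range.2 h7, rfl⟩)
      refine (PP_InF_union_le t ht _ _ hdis).trans ?_
      rw [hear.card, pow_add p (m + 2) (h + 1)]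
      refine mul_le_mul_of_nonneg_right ?_ (pow_nonneg hp0 _)
      refine (PP_InF_le t ht _).trans ?_
      rw [card_chord hr hrm hd]
    · have : PP (Q m h c d r v w) = 0 := by
        rw [← PP_false (n := n)]
        congr 1
        funext e
        exact propext ⟨fun h => hok h.1, fun h => h.elim⟩
      rw [this]
      positivity
  have hsub : ∀ e, StrB (Gt t e) → ∃ m ∈ Finset.range n, ∃ h ∈ Finset.range (n + 1),
      ∃ c ∈ Finset.range (m + 1), ∃ d ∈ Finset.range (m + 1), ∃ r ∈ Finset.range (m + 1),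
      ∃ v ∈ (Finset.univ : Finset (Fin (m + 1) → Lit n)),
      ∃ w ∈ (Finset.univ : Finset (Fin h → Lit n)), Q m h c d r v w e := by
    rintro e ⟨m, c, d, r, U, h, V, hc, hd, hr, hrm, hdist, hU, hh, hV0, hVh, hear, hin⟩
    have hle := le_of_dist hdist
    have hle2 := hear.le
    obtain ⟨m', rfl⟩ : ∃ m', m = m' + 1 := ⟨m - 1, by omega⟩
    obtain ⟨h', rfl⟩ : ∃ h', h = h' + 1 := ⟨h - 1, by omega⟩
    have hspec := mkC_spec m' c (by omega) U hU
    have hspec2 := mkEar_spec (h' + 1) hh V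
    have e1 := pcl_congr hspec
    have e0 := hspec 0 (by omega)
    have er := hspec r (by omega)
    have ed := hspec d (by omega)
    rw [hV0, hVh] at hspec2
    have e2 := pcl_congr hspec2
    have e3 : ((Finset.range (m' + 1)).image fun i => (U i).1)
        = (Finset.range (m' + 1)).image fun i => (mkC m' c (fun i => U i) i).1 := by
      refine Finset.image_congr ?_
      intro i hi
      have hi : i < m' + 1 := by simpa using hi
      simp only
      rw [hspec i (by omega)]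
    refine ⟨m', Finset.mem_range.2 (by omega), h', Finset.mem_range.2 (by omega), c,
      Finset.mem_range.2 hc, d, Finset.mem_range.2 hd, r, Finset.mem_range.2 hrm, fun i => U i,
      Finset.mem_univ _, fun i => V (i + 1), Finset.mem_univ _, ⟨hc, hr, hrm, ?_, ?_⟩, ?_⟩
    · intro i hi j hj e
      rw [← hspec i (by omega), ← hspec j (by omega)] at e
      exact hdist i hi j hj e
    · rw [← e0, ← er, ← ed, ← e1, ← e3]
      exact hear.congr hh hspec2
    · rw [← e0, ← er, ← ed, ← e1]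
      rw [e2] at hin
      exact hin
  refine (PP_mono hsub).trans ?_
  refine (PP_exists _ _).trans ?_
  refine Finset.sum_le_sum fun m _ => ?_
  refine (PP_exists _ _).trans ?_
  refine Finset.sum_le_sum fun h _ => ?_
  have h1 : ∀ c d r, PP (fun e => ∃ v ∈ (Finset.univ : Finset (Fin (m + 1) → Lit n)),
      ∃ w ∈ (Finset.univ : Finset (Fin h → Lit n)), Q m h c d r v w e)
      ≤ (2 * (n : ℝ)) ^ (m + 1) * ((2 * (n : ℝ)) ^ h * p ^ (m + 2 + (h + 1))) := by
    intro c d r
    refine (PP_exists _ _).trans ?_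
    have h2 : ∀ v, PP (fun e => ∃ w ∈ (Finset.univ : Finset (Fin h → Lit n)), Q m h c d r v w e)
        ≤ (2 * (n : ℝ)) ^ h * p ^ (m + 2 + (h + 1)) := by
      intro v
      refine (PP_exists _ _).trans ?_
      refine (Finset.sum_le_card_nsmul _ _ _ (fun w _ => hQ m h c d r v w)).trans ?_
      rw [nsmul_eq_mul, Finset.card_univ, Fintype.card_fun]
      simp only [Fintype.card_prod, Fintype.card_fin, Fintype.card_bool, Nat.cast_pow, Nat.cast_mul,
        Nat.cast_ofNat]
      rw [mul_comm (n : ℝ) 2]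
    refine (Finset.sum_le_card_nsmul _ _ _ (fun v _ => h2 v)).trans ?_
    rw [nsmul_eq_mul, Finset.card_univ, Fintype.card_fun]
    simp only [Fintype.card_prod, Fintype.card_fin, Fintype.card_bool, Nat.cast_pow, Nat.cast_mul,
      Nat.cast_ofNat]
    rw [mul_comm (n : ℝ) 2]
  refine (PP_exists _ _).trans ?_
  refine (Finset.sum_le_card_nsmul _ _ (((m : ℝ) + 1) * (((m : ℝ) + 1) *
    ((2 * (n : ℝ)) ^ (m + 1) * ((2 * (n : ℝ)) ^ h * p ^ (m + 2 + (h + 1)))))) (fun c _ => ?_)).trans ?_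
  · refine (PP_exists _ _).trans ?_
    refine (Finset.sum_le_card_nsmul _ _ (((m : ℝ) + 1) *
      ((2 * (n : ℝ)) ^ (m + 1) * ((2 * (n : ℝ)) ^ h * p ^ (m + 2 + (h + 1))))) (fun d _ => ?_)).trans ?_
    · refine (PP_exists _ _).trans ?_
      refine (Finset.sum_le_card_nsmul _ _ _ (fun r _ => h1 c d r)).trans ?_
      rw [nsmul_eq_mul, Finset.card_range]
      push_cast
      exact le_rfl
    · rw [nsmul_eq_mul, Finset.card_range]
      push_cast
      exact le_rfl
  · rw [nsmul_eq_mul, Finset.card_range]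
    push_cast
    exact le_of_eq (by ring)

end Pool.Agent.P8H97.TS
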