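import Pool.Agent.P8H97.TS.Clause

/-!
# Snakes: minimal unsatisfiable 2-formulas
-/

set_option autoImplicit false

namespace Pool.Agent.P8H97.TS

open Finset

variable {n : ℕ}

/-- A snake `z_0 → z_1 → ⋯ → z_L → z_{L+1}` with `z_0 = ¬ z_j`, `z_{L+1} = ¬ z_k`. -/
structure IsSn (L j k : ℕ) (z : ℕ → Lit n) : Prop where
  hj : 2 ≤ j
  hjk : j ≤ k
  hkL : k + 1 ≤ L
  z0 : z 0 = neg (z j)
  zL : z (L + 1) = neg (z k)
  inj : ∀ i i', 1 ≤ i → i ≤ L → 1 ≤ i' → i' ≤ L → (z i).1 = (z i').1 → i = i'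

namespace IsSn

variable {L j k : ℕ} {z : ℕ → Lit n}

lemma d1 (h : IsSn L j k z) {i i' : ℕ} (hi : i ≤ L) (hi' : i' ≤ L) (e : z i = z i') : i = i' := by
  obtain ⟨hj, hjk, hkL, z0, zL, inj⟩ := h
  rcases Nat.eq_zero_or_pos i with rfl | hi0
  · rcases Nat.eq_zero_or_pos i' with rfl | hi0'
    · rfl
    · rw [z0] at e
      have := inj j i' (by omega) (by omega) hi0' hi' (by rw [← e]; rfl)
      subst this
      exact absurd e (neg_ne _)
  · rcases Nat.eq_zero_or_pos i' with rfl | hi0'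
    · rw [z0] at e
      have := inj i j hi0 hi (by omega) (by omega) (by rw [e]; rfl)
      subst this
      exact absurd e.symm (neg_ne _)
    · exact inj i i' hi0 hi hi0' hi' (by rw [e])

lemma d1' (h : IsSn L j k z) {i i' : ℕ} (h0 : 1 ≤ i) (h0' : 1 ≤ i') (hi : i ≤ L + 1)
    (hi' : i' ≤ L + 1) (e : z i = z i') : i = i' := by
  obtain ⟨hj, hjk, hkL, z0, zL, inj⟩ := h
  rcases Nat.lt_or_ge L i with hi0 | hi0
  · have hiL : i = L + 1 := by omega
    subst hiL
    rcases Nat.lt_or_ge L i' with hi0' | hi0'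
    · omega
    · rw [zL] at e
      have := inj k i' (by omega) (by omega) h0' hi0' (by rw [← e]; rfl)
      subst this
      exact absurd e (neg_ne _)
  · rcases Nat.lt_or_ge L i' with hi0' | hi0'
    · have hiL : i' = L + 1 := by omega
      subst hiL
      rw [zL] at e
      have := inj i k h0 hi0 (by omega) (by omega) (by rw [e]; rfl)
      subst this
      exact absurd e.symm (neg_ne _)
    · exact inj i i' h0 hi0 h0' hi0' (by rw [e])

lemma d2 (h : IsSn L j k z) {i i' : ℕ} (hi : i ≤ L) (h0' : 1 ≤ i') (hi' : i' ≤ L + 1)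
    (e : z i = neg (z i')) : (i = 0 ∧ i' = j) ∨ (i = k ∧ i' = L + 1) := by
  have h' := h
  obtain ⟨hj, hjk, hkL, z0, zL, inj⟩ := h
  rcases Nat.eq_zero_or_pos i with rfl | hi0
  · left
    refine ⟨rfl, ?_⟩
    rw [z0, neg_inj] at e
    exact (h'.d1' (by omega) h0' (by omega) hi' e).symm
  · rcases Nat.lt_or_ge L i' with hi0' | hi0'
    · have hiL : i' = L + 1 := by omega
      subst hiL
      right
      refine ⟨?_, rfl⟩
      rw [zL, neg_neg'] at e
      exact h'.d1 hi (by omega) e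
    · have := inj i i' hi0 hi h0' hi0' (by rw [e]; rfl)
      subst this
      exact absurd e.symm (neg_ne _)

/-- The number of clauses of a snake. -/
lemma card (h : IsSn L j k z) : (pcl z (L + 1)).card = L + 1 := by
  unfold pcl
  rw [Finset.card_image_of_injOn]
  · simp
  · intro i hi i' hi' e
    have hi : i < L + 1 := by simpa using hi
    have hi' : i' < L + 1 := by simpa using hi'
    have := h.hj
    have := h.hjk
    have := h.hkL
    rcases ac_eq_ac e with ⟨e1, _⟩ | ⟨e1, e2⟩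
    · exact h.d1 (by omega) (by omega) e1
    · have e2' : z i' = neg (z (i + 1)) := by rw [e2, neg_neg']
      rcases h.d2 (by omega) (by omega) (by omega) e1 with ⟨a, b⟩ | ⟨a, b⟩ <;>
      rcases h.d2 (by omega) (by omega) (by omega) e2' with ⟨c, d⟩ | ⟨c, d⟩ <;> omega

lemma adj (h : IsSn L j k z) {i : ℕ} (hi : i ≤ L) : (z i).1 ≠ (z (i + 1)).1 := by
  have h' := h
  obtain ⟨hj, hjk, hkL, z0, zL, inj⟩ := h
  intro e
  rcases Nat.eq_zero_or_pos i with rfl | hi0
  · rw [z0] at e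
    have := inj j 1 (by omega) (by omega) (by omega) (by omega) e
    omega
  · rcases Nat.lt_or_ge L (i + 1) with h1 | h1
    · have hiL : i = L := by omega
      subst hiL
      rw [zL] at e
      have := inj i k (by omega) (by omega) (by omega) (by omega) e
      omega
    · have := inj i (i + 1) (by omega) (by omega) (by omega) (by omega) e
      omega

lemma valid (h : IsSn L j k z) : ∀ c ∈ pcl z (L + 1), Valid c := by
  intro c hc
  obtain ⟨i, hi, rfl⟩ := mem_pcl.1 hc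
  exact (valid_ac_iff _ _).2 (h.adj (by omega))

/-- The successors of a literal. -/
lemma succ_cases {x y : Lit n} (hxy : ac x y ∈ pcl z (L + 1)) :
    (∃ i, i ≤ L ∧ x = z i ∧ y = z (i + 1)) ∨ (∃ i, i ≤ L ∧ x = neg (z (i + 1)) ∧ y = neg (z i)) := by
  obtain ⟨i, hi, e⟩ := mem_pcl.1 hxy
  rcases ac_eq_ac e with ⟨e1, e2⟩ | ⟨e1, e2⟩
  · exact Or.inl ⟨i, by omega, e1.symm, e2.symm⟩
  · refine Or.inr ⟨i, by omega, ?_, ?_⟩
    · rw [e2, neg_neg']
    · rw [e1, neg_neg']

/-- Literals with two successors. -/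
lemma two_succ (h : IsSn L j k z) {x y y' : Lit n} (h1 : ac x y ∈ pcl z (L + 1))
    (h2 : ac x y' ∈ pcl z (L + 1)) (hne : y ≠ y') : x = z 0 ∨ x = z k := by
  have hh : ∀ i i', i ≤ L → i' ≤ L → x = z i → x = neg (z (i' + 1)) → x = z 0 ∨ x = z k := by
    intro i i' hi hi' e1 e2
    rcases h.d2 hi (by omega) (by omega) (e1.symm.trans e2) with ⟨a, b⟩ | ⟨a, b⟩
    · left; rw [e1, a]
    · right; rw [e1, a]
  rcases succ_cases h1 with ⟨i, hi, e1, e2⟩ | ⟨i, hi, e1, e2⟩ <;>
  rcases succ_cases h2 with ⟨i', hi', e1', e2'⟩ | ⟨i', hi', e1', e2'⟩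
  · have := h.d1 hi hi' (e1.symm.trans e1')
    subst this
    exact absurd (e2.trans e2'.symm) hne
  · exact hh i i' hi hi' e1 e1'
  · exact hh i' i hi' hi e1' e1
  · have := h.d1' (by omega) (by omega) (by omega) (by omega) (neg_inj.1 (e1.symm.trans e1'))
    have : i = i' := by omega
    subst this
    exact absurd (e2.trans e2'.symm) hne

/-- The set of successors. -/
def _root_.Pool.Agent.P8H97.TS.succs (S : Finset (Finset (Lit n))) (x : Lit n) : Finset (Lit n) :=
  Finset.univ.filter fun y => ac x y ∈ S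

lemma card_succs (h : IsSn L j k z) (x : Lit n) : (succs (pcl z (L + 1)) x).card ≤ 2 := by
  by_contra hc
  push Not at hc
  obtain ⟨a, b, c, ha, hb, hc', hab, hac, hbc⟩ := Finset.two_lt_card_iff.1 hc
  have ha := (Finset.mem_filter.1 ha).2
  have hb := (Finset.mem_filter.1 hb).2
  have hc' := (Finset.mem_filter.1 hc').2
  have k1 : ∀ y y' : Lit n, (∃ i, i ≤ L ∧ x = z i ∧ y = z (i + 1)) →
      (∃ i, i ≤ L ∧ x = z i ∧ y' = z (i + 1)) → y = y' := by
    rintro y y' ⟨i, hi, e1, e2⟩ ⟨i', hi', e1', e2'⟩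
    have := h.d1 hi hi' (e1.symm.trans e1')
    subst this
    exact e2.trans e2'.symm
  have k2 : ∀ y y' : Lit n, (∃ i, i ≤ L ∧ x = neg (z (i + 1)) ∧ y = neg (z i)) →
      (∃ i, i ≤ L ∧ x = neg (z (i + 1)) ∧ y' = neg (z i)) → y = y' := by
    rintro y y' ⟨i, hi, e1, e2⟩ ⟨i', hi', e1', e2'⟩
    have := h.d1' (by omega) (by omega) (by omega) (by omega) (neg_inj.1 (e1.symm.trans e1'))
    have : i = i' := by omega
    subst this
    exact e2.trans e2'.symm
  rcases succ_cases ha with h1 | h1 <;> rcases succ_cases hb with h2 | h2 <;>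
  rcases succ_cases hc' with h3 | h3
  · exact hab (k1 _ _ h1 h2)
  · exact hab (k1 _ _ h1 h2)
  · exact hac (k1 _ _ h1 h3)
  · exact hbc (k2 _ _ h2 h3)
  · exact hbc (k1 _ _ h2 h3)
  · exact hac (k2 _ _ h1 h3)
  · exact hab (k2 _ _ h1 h2)
  · exact hab (k2 _ _ h1 h2)

lemma z0_two (h : IsSn L j k z) : ∃ y y' : Lit n, ac (z 0) y ∈ pcl z (L + 1) ∧
    ac (z 0) y' ∈ pcl z (L + 1) ∧ y ≠ y' := by
  have h' := h
  obtain ⟨hj, hjk, hkL, z0, zL, inj⟩ := h
  refine ⟨z 1, neg (z (j - 1)), mem_pcl.2 ⟨0, by omega, rfl⟩, mem_pcl.2 ⟨j - 1, by omega, ?_⟩, ?_⟩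
  · rw [show j - 1 + 1 = j by omega, ac_symm, z0]
  · intro e
    have := inj 1 (j - 1) (by omega) (by omega) (by omega) (by omega) (by rw [e]; rfl)
    rw [← this] at e
    exact ne_neg _ e

lemma zk_two (h : IsSn L j k z) : ∃ y y' : Lit n, ac (z k) y ∈ pcl z (L + 1) ∧
    ac (z k) y' ∈ pcl z (L + 1) ∧ y ≠ y' := by
  have h' := h
  obtain ⟨hj, hjk, hkL, z0, zL, inj⟩ := h
  refine ⟨z (k + 1), neg (z L), mem_pcl.2 ⟨k, by omega, rfl⟩, mem_pcl.2 ⟨L, by omega, ?_⟩, ?_⟩
  · rw [ac_symm, zL, neg_neg']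
  · intro e
    have := inj (k + 1) L (by omega) (by omega) (by omega) (by omega) (by rw [e]; rfl)
    rw [← this] at e
    exact ne_neg _ e

/-- Two snakes with the same clauses and the same three starting data are equal. -/
lemma unique {L' j' k' : ℕ} {z' : ℕ → Lit n} (h : IsSn L j k z) (h' : IsSn L' j' k' z')
    (hS : pcl z (L + 1) = pcl z' (L' + 1)) (e0 : z 0 = z' 0) (e1 : z 1 = z' 1)
    (e2 : z (k + 1) = z' (k' + 1)) :
    L = L' ∧ j = j' ∧ k = k' ∧ ∀ i ≤ L, z i = z' i := by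
  have hL : L = L' := by
    have h1 := h.card
    have h2 := h'.card
    rw [hS, h2] at h1
    omega
  subst hL
  have hj := h.hj
  have hjk := h.hjk
  have hkL := h.hkL
  have hj' := h'.hj
  have hjk' := h'.hjk
  have hkL' := h'.hkL
  have hk : z k = z' k → k = k' := by
    intro e
    obtain ⟨y, y', a, b, c⟩ := h.zk_two
    rw [hS] at a b
    rcases h'.two_succ a b c with h3 | h3
    · rw [e] at h3
      have := h'.d1 (by omega) (by omega) h3
      omega
    · rw [e] at h3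
      exact h'.d1 (by omega) (by omega) h3
  have main : ∀ i ≤ L, z i = z' i := by
    intro i
    induction i with
    | zero => intro _; exact e0
    | succ i ih =>
      intro hi
      have ih := ih (by omega)
      rcases Nat.eq_zero_or_pos i with rfl | hi0
      · exact e1
      · by_cases hik : i = k
        · subst hik
          have := hk ih
          subst this
          exact e2
        · by_contra hne
          have a : ac (z i) (z (i + 1)) ∈ pcl z (L + 1) := mem_pcl.2 ⟨i, by omega, rfl⟩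
          have b : ac (z i) (z' (i + 1)) ∈ pcl z (L + 1) := by
            rw [hS, ih]; exact mem_pcl.2 ⟨i, by omega, rfl⟩
          rcases h.two_succ a b hne with h3 | h3
          · have := h.d1 (by omega) (by omega) h3
            omega
          · have := h.d1 (by omega) (by omega) h3
            exact hik this
  have hkk : k = k' := hk (main k (by omega))
  refine ⟨rfl, ?_, hkk, main⟩
  have e3 : z j = z' j' := by
    have := e0
    rw [h.z0, h'.z0, neg_inj] at this
    exact this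
  rw [← main j' (by omega)] at e3
  exact h.d1 (by omega) (by omega) e3

/-- A snake is unsatisfiable. -/
lemma unsat (h : IsSn L j k z) (a : Fin n → Bool)
    (ha : ∀ c ∈ pcl z (L + 1), ∃ l ∈ c, a l.1 = l.2) : False := by
  have step : ∀ i ≤ L, a (z i).1 = (z i).2 → a (z (i + 1)).1 = (z (i + 1)).2 := by
    intro i hi ht
    obtain ⟨l, hl, hl'⟩ := ha _ (mem_pcl.2 ⟨i, by omega, rfl⟩)
    rcases mem_ac.1 hl with rfl | rfl
    · exfalso
      have : a (z i).1 = !(z i).2 := hl'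
      rw [ht] at this
      simp at this
    · exact hl'
  have walk : ∀ s i, i + s ≤ L + 1 → a (z i).1 = (z i).2 → a (z (i + s)).1 = (z (i + s)).2 := by
    intro s
    induction s with
    | zero => intro i _ h; exact h
    | succ s ih =>
      intro i hi hti
      exact step (i + s) (by omega) (ih i (by omega) hti)
  have hj := h.hj
  have hjk := h.hjk
  have hkL := h.hkL
  have e0 := h.z0
  have eL := h.zL
  by_cases h0 : a (z 0).1 = (z 0).2
  · have h1 := walk j 0 (by omega) h0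
    rw [zero_add] at h1
    rw [e0] at h0
    have : a (z j).1 = !(z j).2 := h0
    rw [h1] at this
    simp at this
  · have h1 : a (z j).1 = (z j).2 := by
      rw [e0] at h0
      have : ¬ a (z j).1 = !(z j).2 := h0
      revert this
      generalize a (z j).1 = p
      generalize (z j).2 = q
      cases p <;> cases q <;> simp
    have h2 := walk (k - j) j (by omega) h1
    rw [show j + (k - j) = k by omega] at h2
    have h3 := walk (L + 1 - k) k (by omega) h2
    rw [show k + (L + 1 - k) = L + 1 by omega, eL] at h3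
    have : a (z k).1 = !(z k).2 := h3
    rw [h2] at this
    simp at this

/-- The closed walk covering all clauses of a snake. -/
lemma closed_walk (h : IsSn L j k z) : ∃ (y : ℕ → Lit n) (Λ : ℕ), 0 < Λ ∧ (∀ i, y (i + Λ) = y i) ∧
    (∀ i, ac (y i) (y (i + 1)) ∈ pcl z (L + 1)) ∧
    (∀ c ∈ pcl z (L + 1), ∀ s, ∃ i, s ≤ i ∧ ac (y i) (y (i + 1)) = c) := by
  have h' := h
  obtain ⟨hj, hjk, hkL, z0, zL, inj⟩ := h
  set Λ := L + 1 + (k - j) with hΛ
  set y0 : ℕ → Lit n := fun i => if i ≤ L + 1 then z i else neg (z (k - (i - (L + 1)))) with hy0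
  have hy0a : ∀ i ≤ L + 1, y0 i = z i := fun i hi => by simp only [hy0, hi, if_true]
  have hy0b : ∀ i, L + 1 ≤ i → y0 i = neg (z (k - (i - (L + 1)))) := by
    intro i hi
    rcases Nat.eq_or_lt_of_le hi with rfl | hi
    · rw [hy0a _ le_rfl, zL]; simp
    · simp only [hy0]; rw [if_neg (by omega)]
  have hper : y0 Λ = y0 0 := by
    rw [hy0b Λ (by omega), hy0a 0 (by omega), z0]
    congr 2
    omega
  have harc : ∀ i < Λ, ac (y0 i) (y0 (i + 1)) ∈ pcl z (L + 1) := by
    intro i hi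
    rcases Nat.lt_or_ge i (L + 1) with h1 | h1
    · rw [hy0a i (by omega), hy0a (i + 1) (by omega)]
      exact mem_pcl.2 ⟨i, h1, rfl⟩
    · rw [hy0b i h1, hy0b (i + 1) (by omega), ac_symm, neg_neg', neg_neg']
      refine mem_pcl.2 ⟨k - (i + 1 - (L + 1)), by omega, ?_⟩
      rw [show k - (i + 1 - (L + 1)) + 1 = k - (i - (L + 1)) by omega]
  have hΛ0 : 0 < Λ := by omega
  have hmod : ∀ i, y0 ((i + 1) % Λ) = y0 (i % Λ + 1) := by
    intro i
    have hlt := Nat.mod_lt i hΛ0
    rcases Nat.lt_or_ge (i % Λ + 1) Λ with h1 | h1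
    · have : (i + 1) % Λ = i % Λ + 1 := by
        rw [Nat.add_mod, Nat.mod_eq_of_lt (a := 1) (by omega)]
        exact Nat.mod_eq_of_lt h1
      rw [this]
    · have h2 : i % Λ + 1 = Λ := by omega
      have : (i + 1) % Λ = 0 := by
        rw [← Nat.mod_add_mod, h2, Nat.mod_self]
      rw [this, h2, hper]
  refine ⟨fun i => y0 (i % Λ), Λ, hΛ0, fun i => by simp, fun i => ?_, fun c hc s => ?_⟩
  · simp only
    rw [hmod]
    exact harc _ (Nat.mod_lt _ hΛ0)
  · obtain ⟨i, hi, rfl⟩ := mem_pcl.1 hc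
    refine ⟨i + Λ * s, ?_, ?_⟩
    · have : s ≤ Λ * s := Nat.le_mul_of_pos_left s hΛ0
      omega
    · simp only
      rw [hmod]
      have : (i + Λ * s) % Λ = i := by
        rw [Nat.add_mul_mod_self_left]
        exact Nat.mod_eq_of_lt (by omega)
      rw [this, hy0a i (by omega), hy0a (i + 1) (by omega)]

end IsSn

/-- The ear lemma. -/
lemma exists_ear (V : Finset (Fin n)) (SA SB : Finset (Finset (Lit n)))
    (hSA : ∀ c ∈ SA, ∀ x ∈ c, x.1 ∈ V)
    (y : ℕ → Lit n) (Λ : ℕ) (hΛ : 0 < Λ) (hper : ∀ i, y (i + Λ) = y i)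
    (harc : ∀ i, ac (y i) (y (i + 1)) ∈ SB)
    (hcov : ∀ c ∈ SB, ∀ s, ∃ i, s ≤ i ∧ ac (y i) (y (i + 1)) = c)
    (s : ℕ) (hs : (y s).1 ∈ V) (c : Finset (Lit n)) (hcB : c ∈ SB) (hcA : c ∉ SA) :
    ∃ (r : ℕ) (u : ℕ → Lit n), 1 ≤ r ∧ (u 0).1 ∈ V ∧
      (∀ i, 1 ≤ i → i < r → (u i).1 ∉ V) ∧
      (∀ i i', 1 ≤ i → i < r → 1 ≤ i' → i' < r → (u i).1 = (u i').1 → i = i') ∧
      ((u r).1 ∈ V ∨ ∃ i, 1 ≤ i ∧ i < r ∧ (u r).1 = (u i).1) ∧
      ac (u 0) (u 1) ∉ SA ∧ pcl u r ⊆ SB := by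
  classical
  have hex : ∃ i, s ≤ i ∧ ac (y i) (y (i + 1)) ∉ SA := by
    obtain ⟨i, hi, e⟩ := hcov c hcB s
    exact ⟨i, hi, by rw [e]; exact hcA⟩
  set i0 := Nat.find hex with hi0
  have hi0s := (Nat.find_spec hex).1
  have hi0c := (Nat.find_spec hex).2
  have hW : (y i0).1 ∈ V := by
    rcases Nat.eq_or_lt_of_le hi0s with e | hlt
    · rw [← hi0] at e
      rw [← e]; exact hs
    · rw [← hi0] at hlt
      have := Nat.find_min hex (m := i0 - 1) (by omega)
      simp only [not_and, not_not] at this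
      have := this (by omega)
      refine hSA _ this (y i0) (mem_ac.2 (Or.inr ?_))
      rw [show i0 - 1 + 1 = i0 by omega]
  set u : ℕ → Lit n := fun i => y (i0 + i) with hu
  have hu0 : (u 0).1 ∈ V := by simpa [hu] using hW
  have hr : ∃ r, 1 ≤ r ∧ ((u r).1 ∈ V ∨ ∃ i, 1 ≤ i ∧ i < r ∧ (u r).1 = (u i).1) := by
    refine ⟨Λ, hΛ, Or.inl ?_⟩
    simp only [hu]
    rw [hper]; exact hW
  set r := Nat.find hr with hrdef
  have hr1 := (Nat.find_spec hr).1
  have hr2 := (Nat.find_spec hr).2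
  rw [← hrdef] at hr1 hr2
  have hmin : ∀ i, 1 ≤ i → i < r → (u i).1 ∉ V ∧ ∀ i', 1 ≤ i' → i' < i → (u i).1 ≠ (u i').1 := by
    intro i h1 h2
    have := Nat.find_min hr h2
    push Not at this
    obtain ⟨a, b⟩ := this h1
    exact ⟨a, fun i' h3 h4 => b i' h3 h4⟩
  refine ⟨r, u, hr1, hu0, fun i h1 h2 => (hmin i h1 h2).1, ?_, hr2, ?_, ?_⟩
  · intro i i' h1 h2 h3 h4 e
    rcases lt_trichotomy i i' with h | h | h
    · exact absurd e.symm ((hmin i' h3 h4).2 i h1 h)
    · exact h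
    · exact absurd e ((hmin i h1 h2).2 i' h3 h)
  · simpa [hu] using hi0c
  · intro c hc
    obtain ⟨i, hi, rfl⟩ := mem_pcl.1 hc
    exact harc (i0 + i)

end Pool.Agent.P8H97.TS
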