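import Pool.Agent.P8H97.TS.Prob

/-!
# Uniquely satisfiable 2-formulas contain a dense strongly connected piece
-/

set_option autoImplicit false

namespace Pool.Agent.P8H97.TS

open Finset

lemma simple_path {α : Type*} {R : α → α → Prop} {a b : α} (h : Relation.ReflTransGen R a b) :
    ∃ (r : ℕ) (p : ℕ → α), p 0 = a ∧ p r = b ∧ (∀ i < r, R (p i) (p (i + 1))) ∧
      ∀ i ≤ r, ∀ j ≤ r, p i = p j → i = j := by
  classical
  have hex : ∃ r : ℕ, ∃ p : ℕ → α, p 0 = a ∧ p r = b ∧ ∀ i < r, R (p i) (p (i + 1)) := by
    induction h with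
    | refl => exact ⟨0, fun _ => a, rfl, rfl, fun i hi => absurd hi (Nat.not_lt_zero i)⟩
    | @tail x y hax hxy ih =>
      obtain ⟨r, p, h0, hr, hp⟩ := ih
      refine ⟨r + 1, fun i => if i ≤ r then p i else y, ?_, ?_, ?_⟩
      · simp [h0]
      · simp
      · intro i hi
        rcases Nat.lt_or_ge i r with h1 | h1
        · simp only [h1.le, Nat.succ_le_of_lt h1, if_true]
          exact hp i h1
        · have : i = r := by omega
          subst this
          simp only [le_refl, if_true]
          rw [if_neg (by omega), hr]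
          exact hxy
  set r := Nat.find hex with hr
  obtain ⟨p, h0, hrb, hp⟩ := Nat.find_spec hex
  rw [← hr] at hrb hp
  refine ⟨r, p, h0, hrb, hp, ?_⟩
  have key : ∀ i j, i < j → j ≤ r → p i ≠ p j := by
    intro i j hij hj e
    refine Nat.find_min hex (m := r - (j - i)) (by omega)
      ⟨fun k => if k ≤ i then p k else p (k + (j - i)), ?_, ?_, ?_⟩
    · simp [h0]
    · rcases Nat.lt_or_ge i (r - (j - i)) with h1 | h1
      · simp only
        rw [if_neg (by omega), show r - (j - i) + (j - i) = r by omega]
        exact hrb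
      · have h2 : j = r := by omega
        have h3 : r - (j - i) = i := by omega
        simp only
        rw [h3, if_pos le_rfl, e, h2]
        exact hrb
    · intro k hk
      simp only
      rcases lt_trichotomy k i with h1 | h1 | h1
      · rw [if_pos h1.le, if_pos (by omega)]
        exact hp k (by omega)
      · subst h1
        rw [if_pos le_rfl, if_neg (by omega), e, show k + 1 + (j - k) = j + 1 by omega]
        exact hp j (by omega)
      · rw [if_neg (by omega), if_neg (by omega), show k + 1 + (j - i) = k + (j - i) + 1 by omega]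
        exact hp _ (by omega)
  intro i hi j hj e
  rcases lt_trichotomy i j with h | h | h
  · exact absurd e (key i j h hj)
  · exact h
  · exact absurd e.symm (key j i h hi)

variable {n : ℕ}

/-- Cycle with a chord clause. -/
def StrA (G : Finset (Lit n) → Prop) : Prop :=
  ∃ (l r : ℕ) (U : ℕ → Lit n), 1 ≤ r ∧ r < l ∧
    (∀ i < l, ∀ j < l, (U i).1 = (U j).1 → i = j) ∧ U l = U 0 ∧
    ∀ c ∈ insert {U 0, U r} (pcl U l), G c

/-- Lasso with an ear and a chord clause. -/
def StrB (G : Finset (Lit n) → Prop) : Prop :=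
  ∃ (m c d r : ℕ) (U : ℕ → Lit n) (h : ℕ) (V : ℕ → Lit n), c < m ∧ d < m ∧ 1 ≤ r ∧ r < m ∧
    (∀ i < m, ∀ j < m, (U i).1 = (U j).1 → i = j) ∧ U m = U c ∧ 1 ≤ h ∧ V 0 = U d ∧ V h = U 0 ∧
    EarOK ((Finset.range m).image fun i => (U i).1) (insert {U 0, U r} (pcl U m)) h V ∧
    ∀ x ∈ insert {U 0, U r} (pcl U m) ∪ pcl V h, G x

lemma str_of_paths (G : Finset (Lit n) → Prop) (a : Fin n → Bool)
    (R : Fin n → Fin n → Prop) (hR : ∀ v w, R v w → G (ac (v, a v) (w, a w)))
    (v w : Fin n) (hvw : v ≠ w) (hcl : G {(v, a v), (w, a w)})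
    (h1 : Relation.ReflTransGen R v w) (h2 : Relation.ReflTransGen R w v) :
    StrA G ∨ StrB G := by
  classical
  obtain ⟨r, p, p0, pr, hp, pinj⟩ := simple_path h1
  obtain ⟨s, q, q0, qs, hq, qinj⟩ := simple_path h2
  have hr : 1 ≤ r := by
    rcases Nat.eq_zero_or_pos r with rfl | h
    · exact absurd (p0.symm.trans pr) hvw
    · exact h
  have hs : 1 ≤ s := by
    rcases Nat.eq_zero_or_pos s with rfl | h
    · exact absurd (q0.symm.trans qs) hvw.symm
    · exact h
  -- first return of `q` to the path `p`
  have hex : ∃ i, 1 ≤ i ∧ i ≤ s ∧ ∃ c ≤ r, q i = p c := ⟨s, hs, le_rfl, 0, by omega, by rw [qs, p0]⟩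
  set i := Nat.find hex with hi
  obtain ⟨hi1, his, c, hcr, hc⟩ := Nat.find_spec hex
  rw [← hi] at hi1 his hc
  have hmin : ∀ k, 1 ≤ k → k < i → ∀ c ≤ r, q k ≠ p c := by
    intro k hk1 hki c hc e
    exact Nat.find_min hex hki ⟨hk1, by omega, c, hc, e⟩
  have hcr' : c ≠ r := by
    rintro rfl
    rw [pr, ← q0] at hc
    have := qinj i his 0 (by omega) hc
    omega
  -- the walk `u`
  set u : ℕ → Fin n := fun k => if k ≤ r then p k else q (k - r) with hu
  have hu1 : ∀ k ≤ r, u k = p k := fun k hk => by simp only [hu, hk, if_true]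
  have hu2 : ∀ k, u (r + k) = q k := by
    intro k
    rcases Nat.eq_zero_or_pos k with rfl | hk
    · rw [add_zero, hu1 r le_rfl, pr, q0]
    · simp only [hu]
      rw [if_neg (by omega)]
      congr 1
      omega
  have hudist : ∀ x < r + i, ∀ y < r + i, u x = u y → x = y := by
    have key : ∀ x y, x < y → y < r + i → u x ≠ u y := by
      intro x y hxy hy e
      rcases Nat.lt_or_ge r y with h3 | h3
      · obtain ⟨y', rfl⟩ : ∃ y', y = r + y' := ⟨y - r, by omega⟩
        rw [hu2] at e
        rcases Nat.lt_or_ge r x with h4 | h4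
        · obtain ⟨x', rfl⟩ : ∃ x', x = r + x' := ⟨x - r, by omega⟩
          rw [hu2] at e
          have := qinj x' (by omega) y' (by omega) e
          omega
        · rw [hu1 x h4] at e
          exact hmin y' (by omega) (by omega) x h4 e.symm
      · rw [hu1 x (by omega), hu1 y h3] at e
        have := pinj x (by omega) y (by omega) e
        omega
    intro x hx y hy e
    rcases lt_trichotomy x y with h | h | h
    · exact absurd e (key x y h hy)
    · exact h
    · exact absurd e.symm (key y x h hx)
  have huarc : ∀ k < r + i, R (u k) (u (k + 1)) := by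
    intro k hk
    rcases Nat.lt_or_ge k r with h3 | h3
    · rw [hu1 k h3.le, hu1 (k + 1) (by omega)]; exact hp k h3
    · obtain ⟨k', rfl⟩ : ∃ k', k = r + k' := ⟨k - r, by omega⟩
      rw [hu2, show r + k' + 1 = r + (k' + 1) by omega, hu2]
      exact hq k' (by omega)
  set U : ℕ → Lit n := fun k => (u k, a (u k)) with hU
  have hUdist : ∀ x < r + i, ∀ y < r + i, (U x).1 = (U y).1 → x = y := fun x hx y hy e =>
    hudist x hx y hy e
  have hU0 : u 0 = v := by rw [hu1 0 (by omega), p0]
  have hUr : u r = w := by rw [hu1 r le_rfl, pr]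
  have hUi : u (r + i) = u c := by rw [hu2, hc, hu1 c hcr]
  have hUG : ∀ x ∈ insert {U 0, U r} (pcl U (r + i)), G x := by
    intro x hx
    rcases Finset.mem_insert.1 hx with rfl | hx
    · simp only [hU, hU0, hUr]; exact hcl
    · obtain ⟨k, hk, rfl⟩ := mem_pcl.1 hx
      exact hR _ _ (huarc k hk)
  rcases Nat.eq_zero_or_pos c with hc0 | hc0
  · left
    refine ⟨r + i, r, U, hr, by omega, hUdist, ?_, hUG⟩
    simp only [hU]
    rw [hUi, hc0]
  · right
    have his' : i < s := by
      rcases Nat.eq_or_lt_of_le his with e | e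
      · exfalso
        rw [e, qs, ← p0] at hc
        have := pinj 0 (by omega) c hcr hc
        omega
      · exact e
    -- last exit of `q` from the path `p`
    set Z : Finset ℕ := (Finset.range s).filter fun k => ∃ d ≤ r, q k = p d with hZ
    have hiZ : i ∈ Z := Finset.mem_filter.2 ⟨Finset.mem_range.2 his', c, hcr, hc⟩
    set l := Z.max' ⟨i, hiZ⟩ with hl
    have hlZ : l ∈ Z := Finset.max'_mem _ _
    have hil : i ≤ l := Finset.le_max' _ _ hiZ
    obtain ⟨hls, d, hdr, hd⟩ := Finset.mem_filter.1 hlZ
    have hls := Finset.mem_range.1 hls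
    have hlmax : ∀ k, l < k → k < s → ∀ d ≤ r, q k ≠ p d := by
      intro k hk hks d hd e
      have := Finset.le_max' Z k (Finset.mem_filter.2 ⟨Finset.mem_range.2 hks, d, hd, e⟩)
      rw [← hl] at this
      omega
    have hd0 : d ≠ 0 := by
      rintro rfl
      rw [p0, ← qs] at hd
      have := qinj l hls.le s le_rfl hd
      omega
    have hdr' : d ≠ r := by
      rintro rfl
      rw [pr, ← q0] at hd
      have := qinj l hls.le 0 (by omega) hd
      omega
    set V : ℕ → Lit n := fun k => (q (l + k), a (q (l + k))) with hV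
    have hqU : ∀ k, l < k → k < s → ∀ x < r + i, u x ≠ q k := by
      intro k hk hks x hx e
      rcases Nat.lt_or_ge r x with h4 | h4
      · obtain ⟨x', rfl⟩ : ∃ x', x = r + x' := ⟨x - r, by omega⟩
        rw [hu2] at e
        have := qinj x' (by omega) k hks.le e
        omega
      · rw [hu1 x h4] at e
        exact hlmax k hk hks x h4 e.symm
    refine ⟨r + i, c, d, r, U, s - l, V, by omega, by omega, hr, by omega, hUdist, ?_, by omega,
      ?_, ?_, ?_, ?_⟩
    · simp only [hU]; rw [hUi]
    · simp only [hU, hV, add_zero]; rw [hd, hu1 d hdr]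
    · simp only [hU, hV]; rw [show l + (s - l) = s by omega, qs, hU0]
    · refine ⟨?_, ?_, ?_, ?_⟩
      · simp only [hV, add_zero]
        refine Finset.mem_image.2 ⟨d, Finset.mem_range.2 (by omega), ?_⟩
        simp only [hU]; rw [hu1 d hdr, hd]
      · intro k hk1 hk2 hmem
        obtain ⟨x, hx, e⟩ := Finset.mem_image.1 hmem
        exact hqU (l + k) (by omega) (by omega) x (Finset.mem_range.1 hx) e
      · intro k k' hk1 hk2 hk1' hk2' e
        have := qinj (l + k) (by omega) (l + k') (by omega) e
        omega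
      · intro hmem
        have e0 : V 0 = U d := by simp only [hU, hV, add_zero]; rw [hd, hu1 d hdr]
        rcases Finset.mem_insert.1 hmem with h3 | h3
        · have h4 : neg (V 0) ∈ ({U 0, U r} : Finset (Lit n)) := by rw [← h3]; simp [ac]
          rw [e0] at h4
          rcases Finset.mem_insert.1 h4 with h5 | h5
          · have := hUdist d (by omega) 0 (by omega) (by rw [← h5]; rfl)
            exact hd0 this
          · rw [Finset.mem_singleton] at h5
            have := hUdist d (by omega) r (by omega) (by rw [← h5]; rfl)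
            exact hdr' this
        · obtain ⟨k, hk, h4⟩ := mem_pcl.1 h3
          rcases Nat.lt_or_ge (l + 1) s with h5 | h5
          · -- the end point of the first arc is new
            have h6 : V 1 ∈ ac (U k) (U (k + 1)) := by rw [h4]; simp [ac]
            have h7 : ∀ x ≤ r + i, u x ≠ q (l + 1) := by
              intro x hx e
              rcases Nat.eq_or_lt_of_le hx with rfl | hx
              · rw [hUi] at e
                exact hqU (l + 1) (by omega) h5 c (by omega) e
              · exact hqU (l + 1) (by omega) h5 x hx e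
            rcases mem_ac.1 h6 with h8 | h8
            · have h9 : (V 1).1 = (U k).1 := by rw [h8]; rfl
              exact h7 k (by omega) h9.symm
            · have h9 : (V 1).1 = (U (k + 1)).1 := by rw [h8]
              exact h7 (k + 1) (by omega) h9.symm
          · have hs1 : l + 1 = s := by omega
            have e1 : V 1 = U 0 := by
              simp only [hU, hV]; rw [hs1, qs, hU0]
            rw [e0, e1] at h4
            rcases ac_eq_ac h4 with ⟨h5, h6⟩ | ⟨h5, h6⟩
            · have hkd : k = d := hUdist k hk d (by omega) (by rw [h5])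
              rcases Nat.eq_or_lt_of_le (show k + 1 ≤ r + i by omega) with h7 | h7
              · rw [h7] at h6
                have h8 : u (r + i) = u 0 := congrArg Prod.fst h6
                rw [hUi] at h8
                have := hudist c (by omega) 0 (by omega) h8
                omega
              · have := hUdist (k + 1) h7 0 (by omega) (by rw [h6])
                omega
            · have hk0 : k = 0 := hUdist k hk 0 (by omega) (by rw [h5]; rfl)
              subst hk0
              exact ne_neg _ h5
    · intro x hx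
      rcases Finset.mem_union.1 hx with hx | hx
      · exact hUG x hx
      · obtain ⟨k, hk, rfl⟩ := mem_pcl.1 hx
        simp only [hV]
        refine hR _ _ ?_
        rw [show l + (k + 1) = l + k + 1 by omega]
        exact hq _ (by omega)

/-- The structure in a uniquely satisfiable formula. -/
lemma str_of_unique (H : Finset (Cl n)) (hne : H.Nonempty) (a : Fin n → Bool)
    (hsat : ∀ c ∈ H, ∃ l ∈ c.val, a l.1 = l.2)
    (huniq : ∀ b : Fin n → Bool, (∀ c ∈ H, ∃ l ∈ c.val, b l.1 = l.2) →
      ∀ i : Fin n, (∃ c ∈ H, ∃ l ∈ c.val, l.1 = i) → b i = a i) :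
    StrA (fun c => ∃ h, (⟨c, h⟩ : Cl n) ∈ H) ∨ StrB (fun c => ∃ h, (⟨c, h⟩ : Cl n) ∈ H) := by
  classical
  set G : Finset (Lit n) → Prop := fun c => ∃ h, (⟨c, h⟩ : Cl n) ∈ H with hG
  set R : Fin n → Fin n → Prop := fun v w => G (ac (v, a v) (w, a w)) with hR
  set O : Finset (Fin n) := Finset.univ.filter fun i => ∃ c ∈ H, ∃ l ∈ c.val, l.1 = i with hO
  have hOne : O.Nonempty := by
    obtain ⟨c, hc⟩ := hne
    obtain ⟨l, hl, _⟩ := hsat c hc
    exact ⟨l.1, Finset.mem_filter.2 ⟨Finset.mem_univ _, c, hc, l, hl, rfl⟩⟩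
  set Anc : Fin n → Finset (Fin n) := fun x => Finset.univ.filter fun v => Relation.ReflTransGen R v x with hAnc
  obtain ⟨x0, hx0, hmin⟩ := Finset.exists_min_image O (fun x => (Anc x).card) hOne
  set T := Anc x0 with hT
  have hx0T : x0 ∈ T := Finset.mem_filter.2 ⟨Finset.mem_univ _, Relation.ReflTransGen.refl⟩
  -- flipping `T` violates a clause
  set b : Fin n → Bool := fun i => if i ∈ T then !(a i) else a i with hb
  have hviol : ∃ c ∈ H, ∀ l ∈ c.val, b l.1 ≠ l.2 := by
    by_contra hcon
    push Not at hcon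
    have := huniq b hcon x0 (Finset.mem_filter.1 hx0).2
    simp only [hb, hx0T, if_true] at this
    simp at this
  obtain ⟨c, hcH, hcv⟩ := hviol
  obtain ⟨x, y, hxy, hcxy⟩ := valid_exists (n := n) c.2
  have hbx := hcv x (by rw [hcxy]; simp)
  have hby := hcv y (by rw [hcxy]; simp)
  have hGc : G {x, y} := by rw [← hcxy]; exact ⟨c.2, hcH⟩
  have cls : ∀ z : Lit n, b z.1 ≠ z.2 → (z.1 ∈ T ∧ z = (z.1, a z.1)) ∨ (z.1 ∉ T ∧ z = neg (z.1, a z.1)) := by
    intro z hz
    by_cases hzT : z.1 ∈ T
    · left
      refine ⟨hzT, ?_⟩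
      simp only [hb, hzT, if_true] at hz
      ext
      · rfl
      · simp only
        revert hz
        cases a z.1 <;> cases z.2 <;> simp
    · right
      refine ⟨hzT, ?_⟩
      simp only [hb, hzT, if_false] at hz
      ext
      · rfl
      · simp only [neg]
        revert hz
        cases a z.1 <;> cases z.2 <;> simp
  have hTclosed : ∀ v w, R v w → w ∈ T → v ∈ T := by
    intro v w hvw hw
    refine Finset.mem_filter.2 ⟨Finset.mem_univ _, ?_⟩
    exact Relation.ReflTransGen.head hvw (Finset.mem_filter.1 hw).2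
  have hboth : x.1 ∈ T ∧ y.1 ∈ T ∧ x = (x.1, a x.1) ∧ y = (y.1, a y.1) := by
    rcases cls x hbx with ⟨h1, h2⟩ | ⟨h1, h2⟩ <;> rcases cls y hby with ⟨h3, h4⟩ | ⟨h3, h4⟩
    · exact ⟨h1, h3, h2, h4⟩
    · exfalso
      apply h3
      refine hTclosed y.1 x.1 ?_ h1
      simp only [hR, ac]
      rw [← h2, ← h4, Finset.pair_comm]
      exact hGc
    · exfalso
      apply h1
      refine hTclosed x.1 y.1 ?_ h3
      simp only [hR, ac]
      rw [← h2, ← h4]
      exact hGc
    · exfalso
      obtain ⟨l, hl, hal⟩ := hsat c hcH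
      rw [hcxy] at hl
      rcases Finset.mem_insert.1 hl with rfl | hl
      · have : l.2 = !(a l.1) := congrArg Prod.snd h2
        rw [← hal] at this
        simp at this
      · rw [Finset.mem_singleton] at hl
        subst hl
        have : l.2 = !(a l.1) := congrArg Prod.snd h4
        rw [← hal] at this
        simp at this
  obtain ⟨hxT, hyT, ex, ey⟩ := hboth
  have hback : ∀ v ∈ T, v ∈ O → Relation.ReflTransGen R x0 v := by
    intro v hvT hvO
    have hsub : Anc v ⊆ T := by
      intro w hw
      refine Finset.mem_filter.2 ⟨Finset.mem_univ _, ?_⟩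
      exact (Finset.mem_filter.1 hw).2.trans (Finset.mem_filter.1 hvT).2
    have := Finset.eq_of_subset_of_card_le hsub (hmin v hvO)
    have hx0' : x0 ∈ Anc v := by rw [this]; exact hx0T
    exact (Finset.mem_filter.1 hx0').2
  have hxO : x.1 ∈ O := Finset.mem_filter.2 ⟨Finset.mem_univ _, c, hcH, x, by rw [hcxy]; simp, rfl⟩
  have hyO : y.1 ∈ O := Finset.mem_filter.2 ⟨Finset.mem_univ _, c, hcH, y, by rw [hcxy]; simp, rfl⟩
  refine str_of_paths G a R (fun v w h => h) x.1 y.1 hxy ?_ ?_ ?_
  · rw [← ex, ← ey]; exact hGc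
  · exact (Finset.mem_filter.1 hxT).2.trans (hback _ hyT hyO)
  · exact (Finset.mem_filter.1 hyT).2.trans (hback _ hxT hxO)

end Pool.Agent.P8H97.TS
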